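import Mathlib
import Pool.Agent.Helper11.Ro.Types
import Pool.Agent.Helper11.CanThm
import Pool.Agent.Helper11.RelStableThm
import Pool.Agent.Helper11.Zt.AlgMap

/-!
# RO-6: operators on the factors of a product (MP_5f0950_ag)
-/

universe u v w t

open CategoryTheory Finset

namespace Pool.Agent.Helper11.Ro

open Pool.Agent.Helper10 hiding IsAlgAut parityPart
open SmProjVar SPre Pool.Agent.Helper11.Iso Pool.Agent.Helper11.Obs

variable {k : Type u} [Field k] {K : Type v} [Field K] [CharZero K]
  (W : WeilCohomology.{u, v, w} k K) {F : Subfield K}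

/-- induction for classes on a product -/
private lemma prod_induction {A B : SmProjVar k} {p : W.H (A.prod B) → Prop}
    (hext : ∀ a b, p (W.pullA (fst A B) a * W.pullA (snd A B) b))
    (hadd : ∀ x y, p x → p y → p (x + y)) (x : W.H (A.prod B)) : p x := by
  let m : TensorProduct K (W.H A) (W.H B) →ₗ[K] W.H (A.prod B) :=
    LinearMap.mul' K _ ∘ₗ
      TensorProduct.map (W.pullA (fst A B)).toLinearMap (W.pullA (snd A B)).toLinearMap
  have hm : ∀ a b, m (TensorProduct.tmul K a b) =
      W.pull (fst A B) a * W.pull (snd A B) b := fun a b => rfl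
  obtain ⟨s, rfl⟩ := (W.kunneth A B m hm).2 x
  induction s using TensorProduct.induction_on with
  | zero =>
    rw [map_zero]
    have h1 := hext 0 0
    rwa [map_zero, zero_mul] at h1
  | tmul a b => exact hext a b
  | add x y hx hy =>
    rw [map_add]
    exact hadd _ _ hx hy

private lemma pullA_pullA {X Y Z : SmProjVar k} (f : X.toOver ⟶ Y.toOver) (g : Y.toOver ⟶ Z.toOver)
    (x : W.H Z) : W.pullA f (W.pullA g x) = W.pullA (f ≫ g) x := by
  rw [W.pullA_comp]; rfl

private lemma trL_prod (X Y : SmProjVar k) (x : W.H X) (y : W.H Y) :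
    W.trL (X.prod Y) (W.pullA (fst X Y) x * W.pullA (snd X Y) y) = W.trL X x * W.trL Y y :=
  W.tr_prod X Y x y

private lemma span_extProd {A : SmProjVar k} {b : ℕ} : ∀ {V : Fin b → SmProjVar k},
    ∀ y : W.H (prodVar A V), y ∈ Submodule.span K {y | ∃ (x : W.H A) (v : ∀ i, W.H (V i)),
      y = extProd W.toCohomologyData x v} := by
  induction b with
  | zero =>
    intro V y
    refine Submodule.subset_span ⟨y, fun i => i.elim0, ?_⟩
    have h1 : W.pull (𝟙 A.toOver) y * (1 : W.H A) = y := by
      rw [mul_one]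
      exact W.pull_id A y
    exact h1.symm
  | succ b ih =>
    intro V y
    refine prod_induction W (A := prodVar A fun i => V i.castSucc) (B := V (Fin.last b))
      (p := fun y => y ∈ Submodule.span K {y | ∃ (x : W.H A) (v : ∀ i, W.H (V i)),
        y = extProd W.toCohomologyData x v}) (fun d c => ?_)
      (fun x y hx hy => Submodule.add_mem _ hx hy) y
    have hd := ih (V := fun i => V i.castSucc) d
    induction hd using Submodule.span_induction with
    | mem d hd =>
      obtain ⟨x, v, rfl⟩ := hd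
      refine Submodule.subset_span ⟨x, Fin.lastCases c v, ?_⟩
      rw [Can.extProd_succ, Fin.lastCases_last]
      simp only [Fin.lastCases_castSucc]
      rfl
    | zero =>
      rw [map_zero, zero_mul]
      exact Submodule.zero_mem _
    | add d d' _ _ hd hd' =>
      rw [map_add, add_mul]
      exact Submodule.add_mem _ hd hd'
    | smul a d _ hd =>
      rw [map_smul, smul_mul_assoc]
      exact Submodule.smul_mem _ _ hd

/-- `H(A × V 0 × … )` is spanned by the external products, so that a class is determined by its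
pairings with them (induction on `b`; `(W.toSPre K).span_ext_sets` or the Künneth axiom, and
nondegeneracy). -/
theorem eq_of_pairing_extProd {A : SmProjVar k} {b : ℕ} {V : Fin b → SmProjVar k}
    {z z' : W.H (prodVar A V)}
    (h : ∀ (x : W.H A) (v : ∀ i, W.H (V i)),
      W.pairing (prodVar A V) z (extProd W.toCohomologyData x v) =
        W.pairing (prodVar A V) z' (extProd W.toCohomologyData x v)) : z = z' := by
  rw [← sub_eq_zero]
  refine (W.trace (prodVar A V)).nondegenerate _ fun y => ?_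
  have h1 : ∀ y : W.H (prodVar A V), W.trL (prodVar A V) ((z - z') * y) = 0 := by
    intro y
    have hy := span_extProd W y
    induction hy using Submodule.span_induction with
    | mem y hy =>
      obtain ⟨x, v, rfl⟩ := hy
      rw [sub_mul, map_sub, sub_eq_zero]
      exact h x v
    | zero => rw [mul_zero, map_zero]
    | add y y' _ _ hy hy' => rw [mul_add, map_add, hy, hy', add_zero]
    | smul a y _ hy => rw [mul_smul_comm, map_smul, hy, smul_zero]
  exact h1 y

/-- maps with coefficients in `F` are additive and preserve the parity -/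
private lemma map_props {V : SmProjVar k} {w : W.H V → W.H V}
    (hw : IsMapOver W.toCohomologyData F V w) :
    (∀ x y, w (x + y) = w x + w y) ∧ (∀ x ∈ W.evK V, w x ∈ W.evK V) ∧
      ∀ x ∈ W.odK V, w x ∈ W.odK V := by
  obtain ⟨c, hc, h⟩ := hw
  have h' : ∀ x y : W.H V, W.trL V (w x * y) =
      W.trL (V.prod V) (W.pullA (fst V V) x * c * W.pullA (snd V V) y) := h
  have hce : c ∈ W.evK _ := W.algClasses_le_evK _ (cycleSpan_le W _ hc)
  have hnd : ∀ x : W.H V, (∀ y, W.trL V (x * y) = 0) → x = 0 := (W.trace V).nondegenerate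
  -- the trace vanishes on odd classes
  have hodd : ∀ (X : SmProjVar k), ∀ x ∈ W.odK X, W.trL X x = 0 := by
    intro X x hx
    refine W.odK_induction X (p := fun x => W.trL X x = 0) (fun i hi x hx => ?_) (map_zero _)
      (fun a b ha hb => by rw [map_add, ha, hb, add_zero]) hx
    exact W.tr_eq_zero_of_gr X (fun h0 => hi (by rw [h0]; exact even_two_mul _)) hx
  have hdec : ∀ (X : SmProjVar k) (x : W.H X), ∃ a ∈ W.evK X, ∃ b ∈ W.odK X, a + b = x := by
    intro X x
    have h1 : x ∈ W.evK X ⊔ W.odK X := by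
      rw [(W.isCompl X).sup_eq_top]; trivial
    exact Submodule.mem_sup.mp h1
  have hoe : ∀ (X : SmProjVar k), ∀ x ∈ W.odK X, ∀ y ∈ W.evK X, x * y ∈ W.odK X := by
    intro X x hx y hy
    rw [← W.evK_comm X y x hy]
    exact W.evK_mul_odK X y x hy hx
  have htop : (⊤ : Submodule K (W.H V)) = W.evK V ⊔ W.odK V := (W.isCompl V).sup_eq_top.symm
  refine ⟨fun x y => ?_, fun x hx => ?_, fun x hx => ?_⟩
  · rw [← sub_eq_zero]
    refine hnd _ fun y' => ?_
    rw [sub_mul, add_mul, map_sub, map_add, h', h', h', map_add, add_mul, add_mul, map_add,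
      sub_self]
  · obtain ⟨a, ha, b, hb, hab⟩ := hdec V (w x)
    have hb0 : b = 0 := by
      refine hnd _ fun y => ?_
      obtain ⟨y₀, hy₀, y₁, hy₁, rfl⟩ := hdec V y
      have h1 : W.trL V (b * y₀) = 0 := hodd V _ (hoe V b hb y₀ hy₀)
      have h2 : W.trL V (a * y₁) = 0 := hodd V _ (W.evK_mul_odK V a y₁ ha hy₁)
      have h3 : W.trL V (w x * y₁) = 0 := by
        rw [h']
        refine hodd _ _ (W.evK_mul_odK _ _ _ (W.evK_mul_evK _ _ _ (W.pull_evK _ _ hx) hce)
          (W.pull_odK _ _ hy₁))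
      rw [← hab, add_mul, map_add, h2, zero_add] at h3
      rw [mul_add, map_add, h1, h3, add_zero]
    rw [← hab, hb0, add_zero]
    exact ha
  · obtain ⟨a, ha, b, hb, hab⟩ := hdec V (w x)
    have ha0 : a = 0 := by
      refine hnd _ fun y => ?_
      obtain ⟨y₀, hy₀, y₁, hy₁, rfl⟩ := hdec V y
      have h1 : W.trL V (a * y₁) = 0 := hodd V _ (W.evK_mul_odK V a y₁ ha hy₁)
      have h2 : W.trL V (b * y₀) = 0 := hodd V _ (hoe V b hb y₀ hy₀)
      have h3 : W.trL V (w x * y₀) = 0 := by
        rw [h']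
        refine hodd _ _ (hoe _ _ (hoe _ _ (W.pull_odK _ _ hx) _ hce) _ (W.pull_evK _ _ hy₀))
      rw [← hab, add_mul, map_add, h2, add_zero] at h3
      rw [mul_add, map_add, h1, h3, add_zero]
    rw [← hab, ha0, zero_add]
    exact hb

/-- an operator on the first factor -/
private lemma exists_adj {V B : SmProjVar k} {w : W.H V → W.H V}
    (hw : IsMapOver W.toCohomologyData F V w) {z : W.H (V.prod B)}
    (hz : z ∈ cycleSpan W.toCohomologyData F (V.prod B)) :
    ∃ z' ∈ cycleSpan W.toCohomologyData F (V.prod B), ∀ (x : W.H V) (y : W.H B),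
      W.trL _ (z' * (W.pullA (fst V B) x * W.pullA (snd V B) y)) =
        W.trL _ (z * (W.pullA (fst V B) (w x) * W.pullA (snd V B) y)) := by
  obtain ⟨c, hc, h⟩ := hw
  have h' : ∀ x y : W.H V, W.trL V (w x * y) =
      W.trL (V.prod V) (W.pullA (fst V V) x * c * W.pullA (snd V V) y) := h
  have hce : c ∈ W.evK _ := W.algClasses_le_evK _ (cycleSpan_le W _ hc)
  have hze : z ∈ W.evK _ := W.algClasses_le_evK _ (cycleSpan_le W _ hz)
  let f : ((V.prod V).prod B).toOver ⟶ (V.prod B).toOver :=
    lift (fst (V.prod V) B ≫ fst V V) (snd (V.prod V) B)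
  let g : ((V.prod V).prod B).toOver ⟶ (V.prod B).toOver :=
    lift (fst (V.prod V) B ≫ snd V V) (snd (V.prod V) B)
  obtain ⟨z', hz', hz'2⟩ := push_mem_cycleSpan (F := F) W f
    (mul_mem_cycleSpan W _ (pull_mem_cycleSpan W (fst (V.prod V) B) hc)
      (pull_mem_cycleSpan W g hz))
  refine ⟨z', hz', fun x y => ?_⟩
  rw [hz'2]
  have hce' : W.pullA (fst (V.prod V) B) c ∈ W.evK _ := W.pull_evK _ _ hce
  have key : ∀ t : W.H (V.prod B),
      W.trL _ (W.pullA (fst (V.prod V) B) (W.pullA (fst V V) x * c) * W.pullA g t *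
        W.pullA (snd (V.prod V) B) y) =
      W.trL _ (W.pullA (fst V B) (w x) * t * W.pullA (snd V B) y) := by
    intro t
    refine prod_induction W (A := V) (B := B) (p := fun t =>
      W.trL _ (W.pullA (fst (V.prod V) B) (W.pullA (fst V V) x * c) * W.pullA g t *
        W.pullA (snd (V.prod V) B) y) =
      W.trL _ (W.pullA (fst V B) (w x) * t * W.pullA (snd V B) y)) (fun a b => ?_)
      (fun t t' ht ht' => ?_) t
    · have e1 : W.pullA g (W.pullA (fst V B) a * W.pullA (snd V B) b) =
          W.pullA (fst (V.prod V) B) (W.pullA (snd V V) a) *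
            W.pullA (snd (V.prod V) B) b := by
        rw [map_mul, pullA_pullA, pullA_pullA, pullA_pullA, lift_fst, lift_snd]
      have e2 : W.pullA (fst (V.prod V) B) (W.pullA (fst V V) x * c) *
          W.pullA g (W.pullA (fst V B) a * W.pullA (snd V B) b) *
            W.pullA (snd (V.prod V) B) y =
          W.pullA (fst (V.prod V) B) (W.pullA (fst V V) x * c * W.pullA (snd V V) a) *
            W.pullA (snd (V.prod V) B) (b * y) := by
        rw [e1, map_mul (W.pullA (fst (V.prod V) B)) (W.pullA (fst V V) x * c),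
          map_mul (W.pullA (snd (V.prod V) B)) b]
        simp only [mul_assoc]
      have e3 : W.pullA (fst V B) (w x) * (W.pullA (fst V B) a * W.pullA (snd V B) b) *
            W.pullA (snd V B) y =
          W.pullA (fst V B) (w x * a) * W.pullA (snd V B) (b * y) := by
        rw [map_mul (W.pullA (fst V B)), map_mul (W.pullA (snd V B)) b]
        simp only [mul_assoc]
      rw [e2, e3, trL_prod, trL_prod, h']
    · simp only [map_add, mul_add, add_mul] at ht ht' ⊢
      rw [ht, ht']
  have e4 : W.pullA (fst (V.prod V) B) c * W.pullA g z *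
      W.pullA f (W.pullA (fst V B) x * W.pullA (snd V B) y) =
      W.pullA (fst (V.prod V) B) (W.pullA (fst V V) x * c) * W.pullA g z *
        W.pullA (snd (V.prod V) B) y := by
    have e5 : W.pullA f (W.pullA (fst V B) x * W.pullA (snd V B) y) =
        W.pullA (fst (V.prod V) B) (W.pullA (fst V V) x) * W.pullA (snd (V.prod V) B) y := by
      rw [map_mul, pullA_pullA, pullA_pullA, pullA_pullA, lift_fst, lift_snd]
    rw [e5, map_mul (W.pullA (fst (V.prod V) B)) (W.pullA (fst V V) x), ← mul_assoc]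
    congr 1
    rw [W.evK_comm _ _ _ (W.evK_mul_evK _ _ _ hce' (W.pull_evK g z hze)), mul_assoc]
  have e6 : z * (W.pullA (fst V B) (w x) * W.pullA (snd V B) y) =
      W.pullA (fst V B) (w x) * z * W.pullA (snd V B) y := by
    rw [← mul_assoc, W.evK_comm _ z _ hze]
  rw [e4, e6, key]

/-- one more factor -/
private lemma exists_step {D C : SmProjVar k} {wC : W.H C → W.H C}
    (hwC : IsMapOver W.toCohomologyData F C wC) {S : Set (W.H D × W.H D)}
    (hS : ∀ (B : SmProjVar k), ∀ z ∈ cycleSpan W.toCohomologyData F (D.prod B),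
      ∃ z' ∈ cycleSpan W.toCohomologyData F (D.prod B), ∀ p ∈ S, ∀ y : W.H B,
        W.trL _ (z' * (W.pullA (fst _ _) p.1 * W.pullA (snd _ _) y)) =
        W.trL _ (z * (W.pullA (fst _ _) p.2 * W.pullA (snd _ _) y))) (B : SmProjVar k)
    {z : W.H ((D.prod C).prod B)}
    (hz : z ∈ cycleSpan W.toCohomologyData F ((D.prod C).prod B)) :
    ∃ z' ∈ cycleSpan W.toCohomologyData F ((D.prod C).prod B), ∀ p ∈ S, ∀ (c : W.H C)
      (y : W.H B),
      W.trL _ (z' * (W.pullA (fst (D.prod C) B) (W.pullA (fst D C) p.1 * W.pullA (snd D C) c) *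
        W.pullA (snd (D.prod C) B) y)) =
      W.trL _ (z * (W.pullA (fst (D.prod C) B) (W.pullA (fst D C) p.2 *
        W.pullA (snd D C) (wC c)) * W.pullA (snd (D.prod C) B) y)) := by
  -- the three changes of coordinates
  let f : ((D.prod C).prod B).toOver ⟶ (D.prod (C.prod B)).toOver :=
    lift (fst _ _ ≫ fst _ _) (lift (fst _ _ ≫ snd _ _) (snd _ _))
  let g : (D.prod (C.prod B)).toOver ⟶ (C.prod (D.prod B)).toOver :=
    lift (snd _ _ ≫ fst _ _) (lift (fst _ _) (snd _ _ ≫ snd _ _))
  let e : (C.prod (D.prod B)).toOver ⟶ ((D.prod C).prod B).toOver :=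
    lift (lift (snd _ _ ≫ fst _ _) (fst _ _)) (snd _ _ ≫ snd _ _)
  obtain ⟨z₁, hz₁, h₁⟩ := push_mem_cycleSpan (F := F) W f hz
  obtain ⟨z₂, hz₂, h₂⟩ := hS (C.prod B) z₁ hz₁
  obtain ⟨z₃, hz₃, h₃⟩ := push_mem_cycleSpan (F := F) W g hz₂
  obtain ⟨z₄, hz₄, h₄⟩ := exists_adj W hwC (B := D.prod B) hz₃
  obtain ⟨z₅, hz₅, h₅⟩ := push_mem_cycleSpan (F := F) W e hz₄
  refine ⟨z₅, hz₅, fun p hp c y => ?_⟩
  obtain ⟨d, d'⟩ := p
  obtain ⟨hadd, hev, hod⟩ := map_props W hwC
  change W.trL _ (z₅ * (W.pullA (fst (D.prod C) B) (W.pullA (fst D C) d *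
      W.pullA (snd D C) c) * W.pullA (snd (D.prod C) B) y)) =
    W.trL _ (z * (W.pullA (fst (D.prod C) B) (W.pullA (fst D C) d' *
      W.pullA (snd D C) (wC c)) * W.pullA (snd (D.prod C) B) y))
  -- the right-hand side
  have r1 : ∀ c' : W.H C, W.trL _ (z * (W.pullA (fst (D.prod C) B) (W.pullA (fst D C) d' *
      W.pullA (snd D C) c') * W.pullA (snd (D.prod C) B) y)) =
      W.trL _ (z₁ * (W.pullA (fst D (C.prod B)) d' * W.pullA (snd D (C.prod B))
        (W.pullA (fst C B) c' * W.pullA (snd C B) y))) := by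
    intro c'
    rw [h₁]
    congr 2
    simp only [map_mul, pullA_pullA]
    simp only [f, lift_fst, lift_snd, lift_snd_assoc, mul_assoc]
  have r2 : ∀ c' : W.H C, W.trL _ (z₁ * (W.pullA (fst D (C.prod B)) d' *
      W.pullA (snd D (C.prod B)) (W.pullA (fst C B) c' * W.pullA (snd C B) y))) =
      W.trL _ (z₂ * (W.pullA (fst D (C.prod B)) d *
      W.pullA (snd D (C.prod B)) (W.pullA (fst C B) c' * W.pullA (snd C B) y))) :=
    fun c' => (h₂ _ hp _).symm
  have r3 : ∀ c' : W.H C, W.trL _ (z₂ * (W.pullA (fst D (C.prod B)) d *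
      W.pullA (snd D (C.prod B)) (W.pullA (fst C B) c' * W.pullA (snd C B) y))) =
      W.trL _ (z₃ * (W.pullA (snd C (D.prod B)) (W.pullA (fst D B) d) *
        W.pullA (fst C (D.prod B)) c' * W.pullA (snd C (D.prod B)) (W.pullA (snd D B) y))) := by
    intro c'
    rw [h₃]
    congr 2
    simp only [map_mul, pullA_pullA]
    simp only [g, lift_fst, lift_snd, lift_snd_assoc, mul_assoc]
  -- the left-hand side
  have l1 : W.trL _ (z₅ * (W.pullA (fst (D.prod C) B) (W.pullA (fst D C) d *
      W.pullA (snd D C) c) * W.pullA (snd (D.prod C) B) y)) =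
      W.trL _ (z₄ * (W.pullA (snd C (D.prod B)) (W.pullA (fst D B) d) *
        W.pullA (fst C (D.prod B)) c *
        W.pullA (snd C (D.prod B)) (W.pullA (snd D B) y))) := by
    rw [h₅]
    congr 2
    simp only [map_mul, pullA_pullA]
    simp only [e, lift_fst, lift_snd, lift_fst_assoc, mul_assoc]
  -- the operator on `C`
  have hdec : ∀ (X : SmProjVar k) (x : W.H X), ∃ a ∈ W.evK X, ∃ b ∈ W.odK X, a + b = x := by
    intro X x
    have h1 : x ∈ W.evK X ⊔ W.odK X := by
      rw [(W.isCompl X).sup_eq_top]; trivial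
    exact Submodule.mem_sup.mp h1
  -- sign rule
  obtain ⟨d₀, hd₀, d₁, hd₁, hdd⟩ := hdec D d
  have comm : ∀ (c₀ c₁ : W.H C), c₀ ∈ W.evK C → c₁ ∈ W.odK C →
      W.pullA (snd C (D.prod B)) (W.pullA (fst D B) d) *
        W.pullA (fst C (D.prod B)) (c₀ + c₁) *
        W.pullA (snd C (D.prod B)) (W.pullA (snd D B) y) =
      W.pullA (fst C (D.prod B)) c₀ * W.pullA (snd C (D.prod B))
        (W.pullA (fst D B) d * W.pullA (snd D B) y) +
      W.pullA (fst C (D.prod B)) c₁ * W.pullA (snd C (D.prod B))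
        (W.pullA (fst D B) (d₀ - d₁) * W.pullA (snd D B) y) := by
    intro c₀ c₁ hc₀ hc₁
    have k0 : W.pullA (snd C (D.prod B)) (W.pullA (fst D B) d) *
        W.pullA (fst C (D.prod B)) c₀ = W.pullA (fst C (D.prod B)) c₀ *
        W.pullA (snd C (D.prod B)) (W.pullA (fst D B) d) :=
      (W.evK_comm _ _ _ (W.pull_evK _ _ hc₀)).symm
    have k1 : W.pullA (snd C (D.prod B)) (W.pullA (fst D B) d₀) *
        W.pullA (fst C (D.prod B)) c₁ = W.pullA (fst C (D.prod B)) c₁ *
        W.pullA (snd C (D.prod B)) (W.pullA (fst D B) d₀) :=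
      W.evK_comm _ _ _ (W.pull_evK _ _ (W.pull_evK _ _ hd₀))
    have k2 : W.pullA (snd C (D.prod B)) (W.pullA (fst D B) d₁) *
        W.pullA (fst C (D.prod B)) c₁ = -(W.pullA (fst C (D.prod B)) c₁ *
        W.pullA (snd C (D.prod B)) (W.pullA (fst D B) d₁)) :=
      W.odK_anti _ _ _ (W.pull_odK _ _ (W.pull_odK _ _ hd₁)) (W.pull_odK _ _ hc₁)
    have k3 : W.pullA (snd C (D.prod B)) (W.pullA (fst D B) d) *
        W.pullA (fst C (D.prod B)) c₁ = W.pullA (fst C (D.prod B)) c₁ *
        W.pullA (snd C (D.prod B)) (W.pullA (fst D B) (d₀ - d₁)) := by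
      rw [← hdd, map_add, map_add, add_mul, k1, k2, map_sub, map_sub, mul_sub, sub_eq_add_neg]
    rw [map_add, mul_add, add_mul, k0, k3, mul_assoc, mul_assoc, ← map_mul, ← map_mul]
  obtain ⟨c₀, hc₀, c₁, hc₁, rfl⟩ := hdec C c
  rw [l1, r1, r2, r3, hadd, comm c₀ c₁ hc₀ hc₁, comm _ _ (hev c₀ hc₀) (hod c₁ hc₁),
    mul_add, mul_add, map_add, map_add, h₄, h₄]

/-- operators on the factors of `(A × V 0 × …) × B` -/
private lemma exists_slots_aux {A : SmProjVar k} {b : ℕ} : ∀ {V : Fin b → SmProjVar k}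
    {w : ∀ i, W.H (V i) → W.H (V i)}
    (_ : ∀ i, IsMapOver W.toCohomologyData F (V i) (w i)) (B : SmProjVar k)
    {z : W.H ((prodVar A V).prod B)}
    (_ : z ∈ cycleSpan W.toCohomologyData F ((prodVar A V).prod B)),
    ∃ z' ∈ cycleSpan W.toCohomologyData F ((prodVar A V).prod B),
      ∀ (x : W.H A) (v : ∀ i, W.H (V i)) (y : W.H B),
      W.trL _ (z' * (W.pullA (fst _ _) (extProd W.toCohomologyData x v) *
        W.pullA (snd _ _) y)) =
      W.trL _ (z * (W.pullA (fst _ _) (extProd W.toCohomologyData x fun i => w i (v i)) *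
        W.pullA (snd _ _) y)) := by
  induction b with
  | zero =>
    intro V w hw B z hz
    refine ⟨z, hz, fun x v y => ?_⟩
    have h1 : v = fun i => w i (v i) := funext fun i => i.elim0
    rw [← h1]
  | succ b ih =>
    intro V w hw B z hz
    obtain ⟨z', hz', h⟩ := exists_step W (hw (Fin.last b))
      (S := {p : W.H (prodVar A fun i => V i.castSucc) × W.H (prodVar A fun i => V i.castSucc) |
        ∃ (x : W.H A) (v : ∀ i : Fin b, W.H (V i.castSucc)),
          p = (extProd W.toCohomologyData x v,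
            extProd W.toCohomologyData x fun i => w i.castSucc (v i))})
      (fun B' z₁ hz₁ => by
        obtain ⟨z₂, hz₂, h₂⟩ := ih (V := fun i => V i.castSucc) (w := fun i => w i.castSucc)
          (fun i => hw i.castSucc) B' hz₁
        refine ⟨z₂, hz₂, ?_⟩
        rintro _ ⟨x, v, rfl⟩ y
        exact h₂ x v y) B hz
    refine ⟨z', hz', fun x v y => ?_⟩
    have h3 := h _ ⟨x, fun i => v i.castSucc, rfl⟩ (v (Fin.last b)) y
    rw [Can.extProd_succ, Can.extProd_succ]
    exact h3

/-- Correspondences `w i` with coefficients in `F` on the factors `V i` act on the `F`-linear span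
of the classes of algebraic cycles on `A × V 0 × …`.

Proof: induction on `b`. The case of the last factor: on `B × C` (with `C = V (Fin.last _)` and
`B = prodVar A …`), if `κ` is the class on `C × C` of `w`, let `w'` be its adjoint
(`κ' = pull swap κ`, `Iso.tr_op_swap`), and `z' = Iso.comp z κ'`, which is in the span
(`mul_mem_cycleSpan`, `pull_mem_cycleSpan`, `push_mem_cycleSpan`) and satisfies
`⟨z', x × v⟩ = ⟨z, x × w v⟩` (`Iso.op_comp`: `op z' x = op κ' (op z x)`, and
`⟨z, x × v⟩ = ± tr (op z x * v)`). For the other factors use the transposed statement, for `z` as a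
correspondence from `C` to `B`, or apply the induction hypothesis to the classes on `B` obtained
from `z` … (one can also show first that `1 × … × w i × … × 1` is given by a correspondence on the
product with coefficients in `F`, and use its adjoint). -/
theorem exists_slots {A : SmProjVar k} {b : ℕ} {V : Fin b → SmProjVar k}
    {w : ∀ i, W.H (V i) → W.H (V i)}
    (hw : ∀ i, IsMapOver W.toCohomologyData F (V i) (w i)) {z : W.H (prodVar A V)}
    (hz : z ∈ cycleSpan W.toCohomologyData F (prodVar A V)) :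
    ∃ z' ∈ cycleSpan W.toCohomologyData F (prodVar A V), ∀ (x : W.H A) (v : ∀ i, W.H (V i)),
      W.pairing (prodVar A V) z' (extProd W.toCohomologyData x v) =
        W.pairing (prodVar A V) z (extProd W.toCohomologyData x fun i => w i (v i)) := by
  -- use `B = prodVar A V` and the diagonal
  obtain ⟨z₁, hz₁, h₁⟩ := push_mem_cycleSpan (F := F) W
    (lift (𝟙 (prodVar A V).toOver) (𝟙 (prodVar A V).toOver)) hz
  obtain ⟨z₂, hz₂, h₂⟩ := exists_slots_aux W hw (prodVar A V) hz₁
  obtain ⟨z₃, hz₃, h₃⟩ := push_mem_cycleSpan (F := F) W (fst (prodVar A V) (prodVar A V)) hz₂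
  refine ⟨z₃, hz₃, fun x v => ?_⟩
  change W.trL _ (z₃ * extProd W.toCohomologyData x v) =
    W.trL _ (z * extProd W.toCohomologyData x fun i => w i (v i))
  have e1 := h₂ x v 1
  rw [map_one, mul_one, mul_one] at e1
  rw [h₃, e1, h₁, pullA_pullA, lift_fst, W.pullA_id]
  rfl

end Pool.Agent.Helper11.Ro
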