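import Mathlib
import Pool.Agent.Helper11.Ro.Types
import Pool.Agent.Helper11.CanThm
import Pool.Agent.Helper11.RelStableThm
import Pool.Agent.Helper11.Zt.AlgMap

/-!
# RO-5: maps given by correspondences with coefficients in a subfield (MP_5f0950_ag)
-/

universe u v w t

open CategoryTheory Finset

namespace Pool.Agent.Helper11.Ro

open Pool.Agent.Helper10 hiding IsAlgAut parityPart
open SmProjVar SPre Pool.Agent.Helper11.Iso Pool.Agent.Helper11.Obs

variable {k : Type u} [Field k] {K : Type v} [Field K] [CharZero K]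
  (W : WeilCohomology.{u, v, w} k K) {F : Subfield K}

lemma r5_tr {V : SmProjVar k} (κ : W.H (V.prod V)) (x y : W.H V) :
    (W.toSPre K).tr V (op (Obs.one W K κ) (Obs.one W K x) * Obs.one W K y) =
      algebraMap K K (W.tr (V.prod V) (W.pull (fst V V) x * κ * W.pull (snd V V) y)) := by
  rw [op_apply, tr_pushF]
  have h1 : W.trΩ K (V.prod V) (W.pullΩ K (fst V V) ((1 : K) ⊗ₜ[K] x) * ((1 : K) ⊗ₜ[K] κ) *
      W.pullΩ K (snd V V) ((1 : K) ⊗ₜ[K] y)) =
      algebraMap K K (W.tr (V.prod V) (W.pull (fst V V) x * κ * W.pull (snd V V) y)) := by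
    rw [WeilCohomology.pullΩ_tmul, WeilCohomology.pullΩ_tmul,
      Algebra.TensorProduct.tmul_mul_tmul, Algebra.TensorProduct.tmul_mul_tmul,
      WeilCohomology.trΩ_tmul, mul_one, mul_one, WeilCohomology.trL_apply,
      Algebra.algebraMap_eq_smul_one]
    rfl
  exact h1

/-- the relation with the operators `op` (see `Zt.isAlgebraicMap_iff`, `Obs.op_one`,
`Obs.exists_map`, `Can.eq_one`, `mem_relA`) -/
theorem isMapOver_iff {V : SmProjVar k} {u : W.H V → W.H V} :
    IsMapOver W.toCohomologyData F V u ↔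
      ∃ κ ∈ cycleSpan W.toCohomologyData F (V.prod V),
        ∀ x, op (Obs.one W K κ) (Obs.one W K x) = Obs.one W K (u x) := by
  constructor
  · rintro ⟨c, hc, hu⟩
    exact ⟨c, hc, op_one W K hu⟩
  · rintro ⟨κ, hκ, hu⟩
    refine ⟨κ, hκ, fun x y => ?_⟩
    have h1 := r5_tr W κ x y
    rw [hu, Obs.tr_one_mul] at h1
    exact (algebraMap K K).injective h1

lemma r5_iff {V : SmProjVar k} {u : W.H V → W.H V} :
    IsMapOver W.toCohomologyData F V u ↔
      ∃ κ ∈ (relStr W F K).A (V.prod V),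
        ∀ x, op κ (Obs.one W K x) = Obs.one W K (u x) := by
  rw [isMapOver_iff]
  constructor
  · rintro ⟨κ, hκ, h⟩
    exact ⟨Obs.one W K κ, (mem_relA W F K).mpr ⟨κ, hκ, rfl⟩, h⟩
  · rintro ⟨κ, hκ, h⟩
    obtain ⟨c, hc, rfl⟩ := (mem_relA W F K).mp hκ
    exact ⟨c, hc, h⟩

lemma r5_one_mem (X : SmProjVar k) :
    (1 : W.H X) ∈ cycleSpan W.toCohomologyData F X := by
  obtain ⟨c, -, hc⟩ := W.cycleClasses.cy_fundamental X
  rw [← hc]
  exact cy_mem_cycleSpan W F X 0 c

theorem isMapOver_id (V : SmProjVar k) : IsMapOver W.toCohomologyData F V fun x => x := by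
  refine (r5_iff W).mpr ⟨delta (W.toSPre K) V, ?_, fun x => ?_⟩
  · refine (relStr W F K).push_mem _ _ ?_
    exact (mem_relA W F K).mpr ⟨1, r5_one_mem W V, rfl⟩
  · rw [op_apply, delta, ← pushF_pull_mul, ← pushF_comp, pull_pull, lift_fst, lift_snd,
      pull_id_apply, pushF_id, mul_one]

theorem isMapOver_sub {V : SmProjVar k} {u u' : W.H V → W.H V}
    (hu : IsMapOver W.toCohomologyData F V u) (hu' : IsMapOver W.toCohomologyData F V u') :
    IsMapOver W.toCohomologyData F V fun x => u x - u' x := by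
  obtain ⟨κ, hκ, h⟩ := (r5_iff W).mp hu
  obtain ⟨κ', hκ', h'⟩ := (r5_iff W).mp hu'
  refine (r5_iff W).mpr ⟨κ - κ', AddSubgroup.sub_mem _ hκ hκ', fun x => ?_⟩
  have e1 : op (κ - κ') (Obs.one W K x) = op κ (Obs.one W K x) - op κ' (Obs.one W K x) := by
    rw [sub_eq_add_neg, Iso.op_add, ← neg_one_smul K κ', op_smul, LinearMap.add_apply,
      LinearMap.smul_apply, neg_one_smul, sub_eq_add_neg]
  have e2 : Obs.one W K (u x - u' x) = Obs.one W K (u x) - Obs.one W K (u' x) :=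
    TensorProduct.tmul_sub _ _ _
  rw [e1, h, h', e2]

theorem isMapOver_smul {V : SmProjVar k} {a : K} (ha : a ∈ F) {u : W.H V → W.H V}
    (hu : IsMapOver W.toCohomologyData F V u) :
    IsMapOver W.toCohomologyData F V fun x => a • u x := by
  obtain ⟨κ, hκ, h⟩ := (isMapOver_iff W).mp hu
  refine (isMapOver_iff W).mpr ⟨a • κ, smul_mem_cycleSpan W ⟨a, ha⟩ hκ, fun x => ?_⟩
  rw [Can.one_smul', op_smul, LinearMap.smul_apply, h, Can.one_smul']

/-- compositions (`Iso.comp`, `Iso.op_comp`, and the closure properties `mul_mem_cycleSpan`,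
`pull_mem_cycleSpan`, `push_mem_cycleSpan`, or `relStr`) -/
theorem isMapOver_comp {V : SmProjVar k} {u u' : W.H V → W.H V}
    (hu : IsMapOver W.toCohomologyData F V u) (hu' : IsMapOver W.toCohomologyData F V u') :
    IsMapOver W.toCohomologyData F V fun x => u' (u x) := by
  obtain ⟨κ, hκ, h⟩ := (r5_iff W).mp hu
  obtain ⟨κ', hκ', h'⟩ := (r5_iff W).mp hu'
  refine (r5_iff W).mpr ⟨Iso.comp κ κ', ?_, fun x => ?_⟩
  · exact (relStr W F K).push_mem _ _ ((relStr W F K).mul_mem _ _ _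
      ((relStr W F K).pull_mem _ _ hκ) ((relStr W F K).pull_mem _ _ hκ'))
  · rw [Iso.op_comp, h, h']

/-- the adjoint (`Iso.tr_op_swap`) -/
theorem exists_adjoint {V : SmProjVar k} {u : W.H V → W.H V}
    (hu : IsMapOver W.toCohomologyData F V u) :
    ∃ u' : W.H V → W.H V, IsMapOver W.toCohomologyData F V u' ∧
      ∀ x y, W.pairing V (u x) y = W.pairing V x (u' y) := by
  obtain ⟨κ, hκ, h⟩ := (r5_iff W).mp hu
  have hκs : (W.toSPre K).pull (swap V) κ ∈ (relStr W F K).A (V.prod V) :=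
    (relStr W F K).pull_mem _ _ hκ
  have hev : (W.toSPre K).pull (swap V) κ ∈ (W.toSPre K).ev (V.prod V) :=
    (W.toSPre K).alg_le_ev _ ((relStr W F K).le _ _ hκs)
  obtain ⟨c, hc, hcs⟩ := (mem_relA W F K).mp hκs
  have hc1 : Obs.one W K c = (W.toSPre K).pull (swap V) κ := hcs
  obtain ⟨u', -, hu'⟩ := exists_map W K (cycleSpan_le W _ hc)
  refine ⟨u', (isMapOver_iff W).mpr ⟨c, hc, hu'⟩, fun x y => ?_⟩
  apply (algebraMap K K).injective
  rw [← Obs.tr_one_mul, ← Obs.tr_one_mul, ← hu', ← h, hc1, tr_op_swap hev, pull_pull, swap_swap,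
    pull_id_apply]

theorem IsMapOver.isAlgebraicMap {V : SmProjVar k} {u : W.H V → W.H V}
    (hu : IsMapOver W.toCohomologyData F V u) : W.IsAlgebraicMap V V u := by
  obtain ⟨c, hc, h⟩ := hu
  exact ⟨c, cycleSpan_le W _ hc, h⟩

theorem IsMapOver.exists_linear {V : SmProjVar k} {u : W.H V → W.H V}
    (hu : IsMapOver W.toCohomologyData F V u) : ∃ f : W.H V →ₗ[K] W.H V, ∀ x, f x = u x := by
  obtain ⟨κ, hκ, h⟩ := (isMapOver_iff W).mp hu
  refine ⟨{ toFun := u, map_add' := fun x y => ?_, map_smul' := fun a x => ?_ }, fun x => rfl⟩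
  · apply Zt.one_injective W V
    rw [← h, Obs.one_add, map_add, h, h, Obs.one_add]
  · apply Zt.one_injective W V
    rw [← h, Can.one_smul', map_smul, h, RingHom.id_apply, Can.one_smul']

end Pool.Agent.Helper11.Ro
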