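import Mathlib
import Pool.Agent.Helper11.Ro.Types
import Pool.Agent.Helper11.CanThm
import Pool.Agent.Helper11.RelStableThm

/-!
# RO-1: numerically trivial classes are combinations of numerically trivial cycles (MP_5f0950_ag)
-/

universe u v w t

open CategoryTheory Finset

namespace Pool.Agent.Helper11.Ro

open Pool.Agent.Helper10 hiding IsAlgAut parityPart
open SmProjVar Pool.Agent.Helper11.Obs

variable {k : Type u} [Field k] {K : Type v} [Field K] [CharZero K]
  (W : WeilCohomology.{u, v, w} k K) (F : Subfield K)

/-- Numerically trivial classes are `K`-linear combinations of numerically trivial classes in the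
`F`-linear span of the cycle classes. -/
theorem mem_span_numTrivial {T : SmProjVar k} {z : W.H T}
    (hz : IsNumTrivial W.toCohomologyData T z) :
    z ∈ Submodule.span K {y | y ∈ cycleSpan W.toCohomologyData F T ∧
      IsNumTrivial W.toCohomologyData T y} := by
  classical
  have hz1 : z ∈ Submodule.span K {z : W.H T | ∃ (j : ℕ) (c : T.Z j), z = W.cy T j c} := hz.1
  obtain ⟨n, a, x, hx⟩ := Submodule.mem_span_set'.mp hz1
  have hxF : ∀ i, (x i : W.H T) ∈ cycleSpan W.toCohomologyData F T := by
    intro i
    obtain ⟨j, c, h⟩ := (x i).2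
    rw [h]
    exact cy_mem_cycleSpan W F T j c
  let β := Module.Basis.ofVectorSpace F K
  -- the components
  let ζ : Module.Basis.ofVectorSpaceIndex F K → W.H T := fun s => ∑ i, β.coord s (a i) • (x i : W.H T)
  have hζF : ∀ s, ζ s ∈ cycleSpan W.toCohomologyData F T := fun s =>
    Submodule.sum_mem _ fun i _ => Submodule.smul_mem _ _ (hxF i)
  have hζ0 : ∀ s, ∀ y ∈ cycleGroup W.toCohomologyData T, W.trL T (ζ s * y) = 0 := by
    intro s y hy
    choose N hN using fun i => tr_cycleSpan W T (hxF i) hy
    have h1 : ∑ i, a i * (N i : K) = 0 := by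
      have h2 : W.trL T (z * y) = 0 := by
        refine hz.2 y ?_
        exact cycleGroup_le W T hy
      rw [← h2, ← hx, Finset.sum_mul, map_sum]
      refine Finset.sum_congr rfl fun i _ => ?_
      rw [smul_mul_assoc, map_smul, hN, smul_eq_mul]
    have h3 : ∑ i, β.coord s (a i) * N i = 0 := by
      rw [← map_zero (β.coord s), ← h1, map_sum]
      refine Finset.sum_congr rfl fun i _ => ?_
      have h4 : a i * (N i : K) = N i • a i := by
        rw [Subfield.smul_def, smul_eq_mul, mul_comm]
      rw [h4, map_smul, smul_eq_mul, mul_comm]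
    have h4 : W.trL T (ζ s * y) = ((∑ i, β.coord s (a i) * N i : F) : K) := by
      change W.trL T ((∑ i, β.coord s (a i) • (x i : W.H T)) * y) = _
      rw [Finset.sum_mul, map_sum]
      push_cast
      refine Finset.sum_congr rfl fun i _ => ?_
      rw [Subfield.smul_def, smul_mul_assoc, map_smul, hN, smul_eq_mul]
    rw [h4, h3]
    norm_cast
  have hζn : ∀ s, IsNumTrivial W.toCohomologyData T (ζ s) := by
    intro s
    refine ⟨cycleSpan_le W T (hζF s), fun y hy => ?_⟩
    change W.trL T (ζ s * y) = 0
    unfold CohomologyData.algClasses at hy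
    induction hy using Submodule.span_induction with
    | mem x hx =>
      obtain ⟨j, c, rfl⟩ := hx
      exact hζ0 s _ (cy_mem_cycleGroup W T j c)
    | zero => rw [mul_zero, map_zero]
    | add u v _ _ hu hv => rw [mul_add, map_add, hu, hv, add_zero]
    | smul r u _ hu => rw [mul_smul_comm, map_smul, hu, smul_zero]
  -- the sum
  let S : Finset (Module.Basis.ofVectorSpaceIndex F K) := univ.biUnion fun i => (β.repr (a i)).support
  have ha : ∀ i, a i = ∑ s ∈ S, (β.coord s (a i) : K) * β s := by
    intro i
    conv_lhs => rw [← β.linearCombination_repr (a i)]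
    rw [Finsupp.linearCombination_apply, Finsupp.sum]
    have hsub : (β.repr (a i)).support ⊆ S := fun s hs =>
      mem_biUnion.mpr ⟨i, mem_univ _, hs⟩
    refine (Finset.sum_subset hsub ?_).trans ?_
    · intro s _ hs
      rw [Finsupp.notMem_support_iff.mp hs, zero_smul]
    · refine Finset.sum_congr rfl fun s _ => ?_
      rw [Subfield.smul_def, smul_eq_mul]
      rfl
  have h1 : z = ∑ s ∈ S, (β s : K) • ζ s := by
    rw [← hx]
    have h2 : ∀ s, (β s : K) • ζ s = ∑ i, ((β.coord s (a i) : K) * β s) • (x i : W.H T) := by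
      intro s
      change (β s : K) • (∑ i, β.coord s (a i) • (x i : W.H T)) = _
      rw [Finset.smul_sum]
      refine Finset.sum_congr rfl fun i _ => ?_
      rw [Subfield.smul_def, smul_smul, mul_comm]
    rw [Finset.sum_congr rfl fun s _ => h2 s, Finset.sum_comm]
    refine Finset.sum_congr rfl fun i _ => ?_
    rw [← Finset.sum_smul, ← ha i]
  rw [h1]
  exact Submodule.sum_mem _ fun s _ => Submodule.smul_mem _ _
    (Submodule.subset_span ⟨hζF s, hζn s⟩)

end Pool.Agent.Helper11.Ro
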