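import Mathlib

/-!
# RO-2: polynomials with coefficients in a subfield (MP_5f0950_ag)
-/

namespace Pool.Agent.Helper11.Ro

open Polynomial

variable {K : Type*} [Field K] [CharZero K] (F : Subfield K)

/-- A polynomial over `K` which takes values in the subfield `F` (which is infinite) at all elements
of `F` has coefficients in `F`: Lagrange interpolation at `0, 1, …, n`. -/
theorem exists_of_eval_mem {p : K[X]} (h : ∀ a ∈ F, p.eval a ∈ F) :
    ∃ q : Polynomial F, q.map F.subtype = p := by
  have : CharZero F := F.subtype.charZero
  set s : Finset ℕ := Finset.range (p.natDegree + 1) with hs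
  have hv : Set.InjOn (fun i : ℕ => (i : F)) s := fun a _ b _ hab => Nat.cast_injective hab
  have hmem : ∀ i : ℕ, ((i : F) : K) = (i : K) := fun i => map_natCast F.subtype i
  set r : ℕ → F := fun i => ⟨p.eval (((i : F) : K)), h _ (i : F).2⟩ with hr
  refine ⟨Lagrange.interpolate s (fun i : ℕ => (i : F)) r, ?_⟩
  have hinj : Set.InjOn (fun i : ℕ => (i : K)) s := fun a _ b _ hab => Nat.cast_injective hab
  have hcard : s.card = p.natDegree + 1 := by rw [hs, Finset.card_range]
  refine Polynomial.eq_of_degrees_lt_of_eval_index_eq s hinj ?_ ?_ ?_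
  · exact lt_of_le_of_lt (Polynomial.degree_map_le) (Lagrange.degree_interpolate_lt r hv)
  · rw [hcard]
    exact lt_of_le_of_lt Polynomial.degree_le_natDegree (by exact_mod_cast Nat.lt_succ_self _)
  · intro i hi
    have h1 := Lagrange.eval_interpolate_at_node r hv hi
    have h2 : (i : K) = F.subtype (i : F) := (map_natCast F.subtype i).symm
    change ((Lagrange.interpolate s (fun i : ℕ => (i : F)) r).map F.subtype).eval (i : K) =
      p.eval (i : K)
    rw [h2, Polynomial.eval_map_apply, h1]
    rfl

omit [CharZero K] in
/-- The top coefficient of `p ^ m - q ^ m` for monic `p`, `q` of degree `n` which agree above the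
degree `i`. -/
private theorem coeff_pow_sub_pow {p q : K[X]} (hp : p.Monic) (hq : q.Monic) {n i m : ℕ}
    (hpn : p.natDegree = n) (hqn : q.natDegree = n) (hm : 0 < m)
    (hpq : (p - q).natDegree ≤ i) :
    (p ^ m - q ^ m).coeff ((m - 1) * n + i) = m * (p - q).coeff i := by
  rw [← geom_sum₂_mul]
  have hmon : ∀ k ∈ Finset.range m, (p ^ k * q ^ (m - 1 - k)).Monic := fun k _ =>
    (hp.pow k).mul (hq.pow _)
  have hdeg : ∀ k ∈ Finset.range m, (p ^ k * q ^ (m - 1 - k)).natDegree = (m - 1) * n := by
    intro k hk
    rw [(hp.pow k).natDegree_mul (hq.pow _), hp.natDegree_pow, hq.natDegree_pow, hpn, hqn,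
      ← add_mul]
    congr 1
    have := Finset.mem_range.1 hk
    omega
  rw [Polynomial.coeff_mul_add_eq_of_natDegree_le ?_ hpq]
  · congr 1
    rw [Polynomial.finsetSum_coeff]
    have : ∀ k ∈ Finset.range m, (p ^ k * q ^ (m - 1 - k)).coeff ((m - 1) * n) = 1 := by
      intro k hk
      rw [← hdeg k hk]
      exact (hmon k hk).coeff_natDegree
    rw [Finset.sum_congr rfl this]
    simp
  · exact Polynomial.natDegree_sum_le_of_forall_le _ _ fun k hk => (hdeg k hk).le

/-- A monic polynomial over a field `K` of characteristic `0`, a positive power of which has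
coefficients in a subfield `F`, has coefficients in `F`.

Proof, for instance: `p ^ m = g`. If `n` is the degree of `p = X ^ n + a 1 X ^ (n - 1) + …`, then the
coefficient of `X ^ (m n - j)` in `p ^ m` is `m * a j` plus a polynomial with integral
coefficients in `a 1, …, a (j - 1)`, so that `a j ∈ F` by induction. (Alternatively:
`m p' g = p g'`, recursion for the coefficients of `p`. Or by unique factorisation:
`g = ∏ of irreducible monic polynomials over F`, which are separable.) -/
theorem exists_of_pow {p : K[X]} (hp : p.Monic) {m : ℕ} (hm : 0 < m)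
    (h : ∃ q : Polynomial F, q.map F.subtype = p ^ m) :
    ∃ q : Polynomial F, q.map F.subtype = p := by
  have hrange : ∀ x : K, x ∈ Set.range F.subtype ↔ x ∈ F := fun x => by simp
  have hgF : ∀ t, (p ^ m).coeff t ∈ F := by
    obtain ⟨g, hg⟩ := h
    intro t
    rw [← hg, Polynomial.coeff_map]
    exact (g.coeff t).2
  set n := p.natDegree with hn
  have key : ∀ j i : ℕ, n ≤ i + j → p.coeff i ∈ F := by
    intro j
    induction j with
    | zero =>
      intro i hi
      rcases (show n ≤ i by simpa using hi).eq_or_lt with h1 | h1
      · rw [← h1, hn, hp.coeff_natDegree]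
        exact F.one_mem
      · rw [Polynomial.coeff_eq_zero_of_natDegree_lt h1]
        exact F.zero_mem
    | succ j ih =>
      intro i hi
      by_cases h1 : n ≤ i + j
      · exact ih i h1
      have hin : i < n := by omega
      set q : K[X] := ∑ t ∈ Finset.Ioc i n, Polynomial.monomial t (p.coeff t) with hq
      have hqc : ∀ t, q.coeff t = if t ∈ Finset.Ioc i n then p.coeff t else 0 := by
        intro t
        rw [hq, Polynomial.finsetSum_coeff]
        simp only [Polynomial.coeff_monomial]
        rw [Finset.sum_ite_eq']
      have hqdeg : q.natDegree = n := by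
        apply le_antisymm
        · rw [Polynomial.natDegree_le_iff_coeff_eq_zero]
          intro N hN
          rw [hqc, if_neg]
          simp only [Finset.mem_Ioc]
          omega
        · apply Polynomial.le_natDegree_of_ne_zero
          rw [hqc, if_pos (by simp only [Finset.mem_Ioc]; omega), hn, hp.coeff_natDegree]
          exact one_ne_zero
      have hqm : q.Monic := by
        rw [Polynomial.Monic, Polynomial.leadingCoeff, hqdeg, hqc,
          if_pos (by simp only [Finset.mem_Ioc]; omega), hn, hp.coeff_natDegree]
      have hqF : ∀ t, q.coeff t ∈ F := by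
        intro t
        rw [hqc]
        split_ifs with ht
        · apply ih
          have := (Finset.mem_Ioc.1 ht).1
          omega
        · exact F.zero_mem
      have hqmF : ∀ t, (q ^ m).coeff t ∈ F := by
        have h2 : q ∈ Polynomial.lifts F.subtype :=
          (Polynomial.lifts_iff_coeff_lifts q).2 fun t => (hrange _).2 (hqF t)
        have h3 : q ^ m ∈ Polynomial.lifts F.subtype := pow_mem h2 m
        intro t
        exact (hrange _).1 ((Polynomial.lifts_iff_coeff_lifts _).1 h3 t)
      have hpq : (p - q).natDegree ≤ i := by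
        rw [Polynomial.natDegree_le_iff_coeff_eq_zero]
        intro N hN
        rw [Polynomial.coeff_sub, hqc]
        by_cases hNn : N ≤ n
        · rw [if_pos (Finset.mem_Ioc.2 ⟨hN, hNn⟩), sub_self]
        · rw [if_neg (fun hc => hNn (Finset.mem_Ioc.1 hc).2), sub_zero]
          exact Polynomial.coeff_eq_zero_of_natDegree_lt (by omega)
      have h4 := coeff_pow_sub_pow hp hqm hn.symm hqdeg hm hpq
      have h5 : (p - q).coeff i = p.coeff i := by
        rw [Polynomial.coeff_sub, hqc, if_neg (by simp), sub_zero]
      rw [h5, Polynomial.coeff_sub] at h4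
      have h6 : (m : K) * p.coeff i ∈ F := by
        rw [← h4]
        exact F.sub_mem (hgF _) (hqmF _)
      have hm0 : (m : K) ≠ 0 := Nat.cast_ne_zero.2 hm.ne'
      have h7 : p.coeff i = (m : K)⁻¹ * ((m : K) * p.coeff i) := by
        rw [inv_mul_cancel_left₀ hm0]
      rw [h7]
      exact F.mul_mem (F.inv_mem (natCast_mem F m)) h6
  have hl : p ∈ Polynomial.lifts F.subtype :=
    (Polynomial.lifts_iff_coeff_lifts p).2 fun t => (hrange _).2 (key n t (by omega))
  exact (Polynomial.mem_lifts p).1 hl

end Pool.Agent.Helper11.Ro
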