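import Mathlib
import Pool.Agent.Helper11.Ro.Types
import Pool.Agent.Helper11.Ro.St.R2

/-!
# RO-3: eigenvalues over a subfield (MP_5f0950_ag)
-/

universe v w

namespace Pool.Agent.Helper11.Ro

open Polynomial

/-- If `p (A) = 0`, then the characteristic polynomial of `A` divides a power of `p`. -/
theorem charpoly_dvd_pow_of_aeval {R : Type*} [CommRing R] {n : Type*} [Fintype n] [DecidableEq n]
    (A : Matrix n n R) (p : R[X]) (h : aeval A p = 0) : A.charpoly ∣ p ^ Fintype.card n := by
  have key : ∀ p : R[X], (Matrix.scalar n (X : R[X]) - (C : R →+* R[X]).mapMatrix A) ∣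
      (Matrix.scalar n p - (C : R →+* R[X]).mapMatrix (aeval A p)) := by
    intro p
    induction p using Polynomial.induction_on' with
    | add p q hp hq =>
      have e : Matrix.scalar n (p + q) - (C : R →+* R[X]).mapMatrix (aeval A (p + q)) =
          (Matrix.scalar n p - (C : R →+* R[X]).mapMatrix (aeval A p)) +
            (Matrix.scalar n q - (C : R →+* R[X]).mapMatrix (aeval A q)) := by
        rw [map_add, map_add, map_add]
        abel
      rw [e]
      exact dvd_add hp hq
    | monomial k a =>
      have hc : Commute (Matrix.scalar n (X : R[X])) ((C : R →+* R[X]).mapMatrix A) :=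
        Matrix.scalar_commute _ (fun r => Commute.all _ _) _
      obtain ⟨B, hB⟩ := hc.sub_dvd_pow_sub_pow k
      refine ⟨Matrix.scalar n (C a) * B, ?_⟩
      have hs : ∀ D : Matrix n n R[X], D * (Matrix.scalar n (C a) * B) =
          Matrix.scalar n (C a) * (D * B) := by
        intro D
        rw [← mul_assoc, ← mul_assoc,
          (Matrix.scalar_commute (C a) (fun r => Commute.all _ _) D).eq]
      rw [hs, ← hB, ← C_mul_X_pow_eq_monomial, map_mul, map_pow, mul_sub, map_mul, aeval_C,
        map_pow, aeval_X, map_mul, map_pow]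
      congr 2
      ext i j
      simp [Matrix.algebraMap_matrix_apply, Matrix.diagonal_apply]
      split_ifs <;> simp
  obtain ⟨B, hB⟩ := key p
  rw [h, map_zero, sub_zero] at hB
  have h2 := congrArg Matrix.det hB
  rw [Matrix.det_mul, Matrix.scalar_apply, Matrix.det_diagonal, Finset.prod_const,
    Finset.card_univ] at h2
  exact ⟨B.det, h2⟩

variable {K : Type v} [Field K] [CharZero K] (F : Subfield K) {M : Type w} [AddCommGroup M]
  [Module K M]

omit [CharZero K] in
theorem aeval_apply_of_matrix {r : ℕ} (u : M →ₗ[K] M) (f : Fin r → M)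
    (ρ : Matrix (Fin r) (Fin r) K) (h : ∀ j, u (f j) = ∑ s, ρ s j • f s) (p : K[X]) (j : Fin r) :
    (aeval u p) (f j) = ∑ s, (aeval ρ p) s j • f s := by
  have hpow : ∀ (k : ℕ) (j : Fin r), (u ^ k) (f j) = ∑ s, (ρ ^ k) s j • f s := by
    intro k
    induction k with
    | zero =>
      intro j
      simp [Matrix.one_apply, ite_smul]
    | succ k ih =>
      intro j
      rw [pow_succ, Module.End.mul_apply, h j, map_sum]
      simp only [map_smul, ih, Finset.smul_sum, smul_smul]
      rw [Finset.sum_comm]
      refine Finset.sum_congr rfl fun s _ => ?_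
      rw [← Finset.sum_smul, pow_succ, Matrix.mul_apply]
      congr 1
      exact Finset.sum_congr rfl fun t _ => mul_comm _ _
  induction p using Polynomial.induction_on' with
  | add p q hp hq =>
    rw [map_add, LinearMap.add_apply, hp, hq, map_add, ← Finset.sum_add_distrib]
    exact Finset.sum_congr rfl fun s _ => by rw [Matrix.add_apply, add_smul]
  | monomial k a =>
    rw [aeval_monomial, aeval_monomial, Module.algebraMap_end_eq_smul_id]
    change a • ((u ^ k) (f j)) = _
    rw [hpow, Finset.smul_sum]
    refine Finset.sum_congr rfl fun s _ => ?_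
    rw [smul_smul, Algebra.algebraMap_eq_smul_one, smul_mul_assoc, one_mul, Matrix.smul_apply,
      smul_eq_mul]

/-- If `∏ i, det (a - u | G i) ^ m ∈ F` for all `a ∈ F`, then the product of the
characteristic polynomials of `u` on the `G i` has coefficients in `F` (`exists_of_eval_mem`,
`exists_of_pow`, `Matrix.eval_charpoly` or so); it is divisible by the characteristic polynomial of
`u` on `G 0`, and divides a power of it, as `G i ≤ G 0`. (If `N = 0`, then `G 0 = ⊥`.)

For `χ_i ∣ χ_0`: the characteristic polynomial on a stable subspace divides the characteristic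
polynomial; or, for the weaker statement needed here, that the irreducible factors of `χ_i` divide
`χ_0`: every irreducible factor of `χ_i` divides the minimal polynomial of `u` on `G i`, which
divides the minimal polynomial of `u` on `G 0`. -/
theorem hasEigenvaluesOver_of_det {N m : ℕ} (hm : 0 < m) {r : Fin N → ℕ}
    {f : ∀ i, Fin (r i) → M} {G : ℕ → Submodule K M} (hG : Antitone G) (hGN : G N = ⊥)
    (hf : ∀ i, LinearIndependent K (f i) ∧ Submodule.span K (Set.range (f i)) = G i)
    (u : M →ₗ[K] M) (ρ : ∀ i, Matrix (Fin (r i)) (Fin (r i)) K)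
    (hρ : ∀ i j, u (f i j) = ∑ s, ρ i s j • f i s)
    (h : ∀ a ∈ F, (∏ i, (Matrix.scalar (Fin (r i)) a - ρ i).det) ^ m ∈ F) :
    HasEigenvaluesOver F u (G 0) := by
  rcases Nat.eq_zero_or_pos N with hN | hN
  · subst hN
    have e : IsEmpty (Fin 0) := inferInstance
    have : Subsingleton (G 0) := by
      rw [hGN]
      infer_instance
    refine ⟨0, Module.Basis.empty _, 0, 1, 1, fun j => Fin.elim0 j, ?_, ?_⟩
    · rw [Polynomial.map_one, Matrix.charpoly, Matrix.det_isEmpty]
    · rw [Polynomial.map_one]
      exact one_dvd _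
  · set i0 : Fin N := ⟨0, hN⟩ with hi0
    have hmonic : (∏ i, (ρ i).charpoly).Monic :=
      monic_prod_of_monic _ _ fun i _ => Matrix.charpoly_monic _
    have h1 : ∃ q : Polynomial F, q.map F.subtype = (∏ i, (ρ i).charpoly) ^ m := by
      refine exists_of_eval_mem F fun a ha => ?_
      rw [eval_pow, eval_prod]
      have h2 := h a ha
      simp only [Matrix.eval_charpoly]
      exact h2
    obtain ⟨q, hq⟩ := exists_of_pow F hmonic hm h1
    have hG0 : Submodule.span K (Set.range (f i0)) = G 0 := (hf i0).2
    -- `u` satisfies the characteristic polynomial on `G 0`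
    have h3 : ∀ y ∈ G 0, (aeval u (ρ i0).charpoly) y = 0 := by
      intro y hy
      rw [← hG0] at hy
      induction hy using Submodule.span_induction with
      | mem x hx =>
        obtain ⟨j, rfl⟩ := hx
        rw [aeval_apply_of_matrix u (f i0) (ρ i0) (hρ i0), Matrix.aeval_self_charpoly]
        simp
      | zero => exact map_zero _
      | add x y _ _ hx hy => rw [map_add, hx, hy, add_zero]
      | smul c x _ hx => rw [map_smul, hx, smul_zero]
    have h4 : ∀ i, aeval (ρ i) (ρ i0).charpoly = 0 := by
      intro i
      ext s j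
      have h5 : f i j ∈ G 0 := by
        refine hG (Nat.zero_le i) ?_
        rw [← (hf i).2]
        exact Submodule.subset_span ⟨j, rfl⟩
      have h6 := h3 _ h5
      rw [aeval_apply_of_matrix u (f i) (ρ i) (hρ i)] at h6
      exact Fintype.linearIndependent_iff.1 (hf i).1 _ h6 s
    refine ⟨r i0, (Module.Basis.span (hf i0).1).map (LinearEquiv.ofEq _ _ hG0), ρ i0, q,
      ∑ i, Fintype.card (Fin (r i)), ?_, ?_, ?_⟩
    · intro j
      have h7 : ∀ s, (((Module.Basis.span (hf i0).1).map (LinearEquiv.ofEq _ _ hG0)) s : M) =
          f i0 s := by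
        intro s
        rw [Module.Basis.map_apply, LinearEquiv.coe_ofEq_apply, Module.Basis.span_apply]
      simp only [h7]
      exact hρ i0 j
    · rw [hq]
      exact Finset.dvd_prod_of_mem _ (Finset.mem_univ i0)
    · rw [hq, ← Finset.prod_pow_eq_pow_sum]
      exact Finset.prod_dvd_prod_of_dvd _ _ fun i _ =>
        charpoly_dvd_pow_of_aeval (ρ i) _ (h4 i)

end Pool.Agent.Helper11.Ro
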