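import Mathlib
import Pool.Agent.Helper11.Ro.Types
import Pool.Agent.Helper11.CanThm
import Pool.Agent.Helper11.Point
import Pool.Agent.Helper11.Zt.AlgMap
import Pool.Agent.Helper11.Zt.Span2

/-!
# RO-4: varieties spanned by words: the point and products (MP_5f0950_ag)
-/

universe u v w t

open CategoryTheory Finset

namespace Pool.Agent.Helper11.Ro

open Pool.Agent.Helper10 hiding IsAlgAut parityPart
open SmProjVar Pool.Agent.Helper11.Obs

variable {k : Type u} [Field k] {K : Type v} [Field K] [CharZero K]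
  (W : WeilCohomology.{u, v, w} k K) {P : ℕ} {V : Fin P → SmProjVar k}
  {E : Subspaces W.toCohomologyData V}

/-- the empty word -/
private lemma ro4_word_one (T : SmProjVar k) :
    IsWordIn W.toCohomologyData V E T (1 : W.H T) :=
  ⟨0, fun i => i.elim0, fun i => i.elim0, fun i => i.elim0, fun i => i.elim0, by
    rw [List.ofFn_zero, List.prod_nil]⟩

/-- words as products of lists of letters -/
private lemma ro4_word_iff {T : SmProjVar k} {y : W.H T} :
    IsWordIn W.toCohomologyData V E T y ↔ ∃ l : List (W.H T), (∀ a ∈ l, ∃ (c : Fin P)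
      (f : T.toOver ⟶ (V c).toOver) (v : W.H (V c)), v ∈ E c ∧ a = W.pull f v) ∧ y = l.prod := by
  constructor
  · rintro ⟨b, c, f, v, hv, rfl⟩
    refine ⟨_, fun a ha => ?_, rfl⟩
    rw [List.mem_ofFn] at ha
    obtain ⟨i, rfl⟩ := ha
    exact ⟨c i, f i, v i, hv i, rfl⟩
  · rintro ⟨l, hl, rfl⟩
    choose c f v hv h using fun i : Fin l.length => hl (l.get i) (l.get_mem i)
    refine ⟨l.length, c, f, v, hv, ?_⟩
    have h1 : List.ofFn (fun i => W.pull (f i) (v i)) = l := by
      conv_rhs => rw [← List.ofFn_get l]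
      congr 1
      funext i
      exact (h i).symm
    rw [h1]

private lemma ro4_pull_letter {T T' : SmProjVar k} (g : T.toOver ⟶ T'.toOver) {y : W.H T'}
    (hy : IsWordIn W.toCohomologyData V E T' y) :
    IsWordIn W.toCohomologyData V E T (W.pull g y) := by
  obtain ⟨b, c, f, v, hv, rfl⟩ := hy
  refine ⟨b, c, fun i => g ≫ f i, v, hv, ?_⟩
  rw [← W.pullA_apply, map_list_prod, List.map_ofFn]
  congr 2
  funext i
  exact (W.pull_comp g (f i) (v i)).symm

private lemma ro4_word_mul {T : SmProjVar k} {x y : W.H T}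
    (hx : IsWordIn W.toCohomologyData V E T x) (hy : IsWordIn W.toCohomologyData V E T y) :
    IsWordIn W.toCohomologyData V E T (x * y) := by
  rw [ro4_word_iff] at hx hy ⊢
  obtain ⟨l, hl, rfl⟩ := hx
  obtain ⟨l', hl', rfl⟩ := hy
  refine ⟨l ++ l', fun a ha => ?_, List.prod_append.symm⟩
  rcases List.mem_append.mp ha with h | h
  · exact hl a h
  · exact hl' a h

/-- The point is spanned by words (the empty word): `H(pt) = K · 1`
(`(W.trace (pt k)).bijective` or so and the class of the fundamental cycle; the identity is an algebraic map). -/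
theorem isSpanned_pt : IsSpanned W.toCohomologyData V E (pt k) := by
  unfold IsSpanned
  rw [eq_top_iff]
  intro y _
  have hg := W.graded (pt k)
  have ht := W.trace (pt k)
  have h0 : ∀ y : W.H (pt k), y ∈ W.gr (pt k) 0 := by
    intro y
    have h1 : (⨆ i, W.gr (pt k) i) ≤ W.gr (pt k) 0 := by
      refine iSup_le fun i => ?_
      rcases Nat.eq_zero_or_pos i with rfl | hi
      · exact le_rfl
      · rw [hg.eq_bot i (by rw [pt_dim]; omega)]
        exact bot_le
    rw [hg.iSup_eq_top] at h1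
    exact h1 trivial
  have huniq : ∀ y : W.H (pt k), W.tr (pt k) y = 0 → y = 0 := by
    intro y hy
    obtain ⟨x, -, hx⟩ := ht.bijective 0
    have h1 := hx y ⟨h0 y, hy⟩
    have h2 := hx 0 ⟨h0 0, W.trL (pt k) |>.map_zero⟩
    rw [h1, h2]
  have hone : (1 : W.H (pt k)) ∈ Submodule.span K {y | ∃ (T : SmProjVar k)
      (u : W.H T → W.H (pt k)) (x : W.H T), W.IsAlgebraicMap T (pt k) u ∧
        IsWordIn W.toCohomologyData V E T x ∧ y = u x} :=
    Submodule.subset_span ⟨pt k, fun x => x, 1, Zt.isAlgebraicMap_id' W _, ro4_word_one W _, rfl⟩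
  have hy : y = (W.tr (pt k) y * (W.tr (pt k) 1)⁻¹) • (1 : W.H (pt k)) := by
    by_cases h1 : W.tr (pt k) (1 : W.H (pt k)) = 0
    · have h2 := huniq 1 h1
      rw [← mul_one y, h2, mul_zero, smul_zero]
    · rw [← sub_eq_zero]
      apply huniq
      have h3 : W.trL (pt k) (y - (W.tr (pt k) y * (W.tr (pt k) 1)⁻¹) • (1 : W.H (pt k))) = 0 := by
        rw [map_sub, map_smul, smul_eq_mul, W.trL_apply, W.trL_apply, mul_assoc,
          inv_mul_cancel₀ h1, mul_one, sub_self]
      exact h3
  rw [hy]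
  exact Submodule.smul_mem _ _ hone

private lemma ro4_exists_map {A B : SmProjVar k} {κ : (W.toSPre K).H (A.prod B)}
    (hκ : κ ∈ (W.toSPre K).alg (A.prod B)) :
    ∃ u : W.H A → W.H B, W.IsAlgebraicMap A B u ∧
      ∀ x, Iso.op κ (Obs.one W K x) = Obs.one W K (u x) := by
  obtain ⟨c, rfl⟩ := Can.eq_one W _ κ
  have hc : c ∈ W.algClasses (A.prod B) := Obs.mem_of_one_mem_baseChange K hκ
  exact exists_map W K hc

private lemma ro4_one_mul {A : SmProjVar k} (x y : W.H A) :
    Obs.one W K (x * y) = Obs.one W K x * Obs.one W K y := by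
  have h1 : ((1 : K) ⊗ₜ[K] (x * y) : TensorProduct K K (W.H A)) =
      ((1 : K) ⊗ₜ[K] x) * ((1 : K) ⊗ₜ[K] y) := by
    rw [Algebra.TensorProduct.tmul_mul_tmul, mul_one]
  exact h1

omit [CharZero K] in
private lemma ro4_op_ext {S : SPre.{u, v, max v w, v} k K K} {T A T' B : SmProjVar k}
    {κ : S.H (T.prod A)} (hκ : κ ∈ S.alg _) {κ' : S.H (T'.prod B)} (hκ' : κ' ∈ S.alg _) :
    ∃ κ'' ∈ S.alg ((T.prod T').prod (A.prod B)), ∀ x x',
      Iso.op κ'' (S.ext T T' x x') = S.ext A B (Iso.op κ x) (Iso.op κ' x') := by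
  refine ⟨S.pushF (lift (Iso.prodMap (fst T A) (fst T' B)) (Iso.prodMap (snd T A) (snd T' B)))
    (S.ext _ _ κ κ'), SPre.pushF_mem _ (S.mul_mem _ _ _ (S.pull_mem _ _ hκ)
      (S.pull_mem _ _ hκ')), fun x x' => ?_⟩
  rw [Iso.op_apply, ← Iso.pushF_pull_mul, ← Iso.pushF_comp, SPre.pull_pull, lift_fst, lift_snd,
    Iso.pull_prodMap_ext, Iso.op_apply, Iso.op_apply, ← Iso.pushF_prodMap_ext]
  congr 1
  have h1 := S.ev_comm _ _ (S.pull (snd (T.prod A) (T'.prod B)) (S.pull (fst T' B) x'))
    (S.pull_ev (fst (T.prod A) (T'.prod B)) _ (S.alg_le_ev _ hκ))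
  unfold SPre.ext
  rw [map_mul (S.pull _), map_mul (S.pull _), mul_assoc, ← mul_assoc (S.pull _ (S.pull _ x')),
    ← h1]
  noncomm_ring

private lemma ro4_ext_map {T A T' B : SmProjVar k} {u : W.H T → W.H A} {u' : W.H T' → W.H B}
    (hu : W.IsAlgebraicMap T A u) (hu' : W.IsAlgebraicMap T' B u') :
    ∃ v : W.H (T.prod T') → W.H (A.prod B), W.IsAlgebraicMap _ _ v ∧ ∀ x x',
      v (W.pull (fst T T') x * W.pull (snd T T') x') =
        W.pull (fst A B) (u x) * W.pull (snd A B) (u' x') := by
  obtain ⟨κ, hκ, h⟩ := (Zt.isAlgebraicMap_iff W).mp hu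
  obtain ⟨κ', hκ', h'⟩ := (Zt.isAlgebraicMap_iff W).mp hu'
  obtain ⟨κ'', hκ'', h''⟩ := ro4_op_ext hκ hκ'
  obtain ⟨v, hv, hv'⟩ := ro4_exists_map W hκ''
  refine ⟨v, hv, fun x x' => Zt.one_injective W _ ?_⟩
  have e1 : ∀ (A B : SmProjVar k) (a : W.H A) (b : W.H B),
      Obs.one W K (W.pull (fst A B) a * W.pull (snd A B) b) =
        (W.toSPre K).ext A B (Obs.one W K a) (Obs.one W K b) := by
    intro A B a b
    unfold SPre.ext
    rw [ro4_one_mul, Obs.pull_one, Obs.pull_one]
  rw [← hv', e1, h'', h, h', ← e1]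

/-- Products of varieties which are spanned by words are spanned by words.

Proof: as `Zt.span_rgen_prod2` (Pool/Agent/Helper11/Zt/Span2.lean): `H(A × B)` is spanned by the
classes `a × b` (`(W.toSPre K).span_ext_sets`, translated by `Can.eq_one`, or the Künneth axiom
directly), and if `a = u x`, `b = u' x'` with words `x` on `T`, `x'` on `T'`, then `a × b` is the
image of the word `x × x'` on `T × T'` under the map given by the product of the correspondences
(up to sign; the words are classes of pure parity). One can also translate `IsSpanned` into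
`Submodule.span K (rgen (W.toSPre K) L (pt k) Y) = ⊤`, where `L T` is the set of the pull-backs to
`T` of the homogeneous elements of the `E c`. -/
theorem isSpanned_prod (hE : ∀ c, IsPiece W.toCohomologyData (V c) (E c)) {A B : SmProjVar k}
    (hA : IsSpanned W.toCohomologyData V E A) (hB : IsSpanned W.toCohomologyData V E B) :
    IsSpanned W.toCohomologyData V E (A.prod B) := by
  unfold IsSpanned at hA hB ⊢
  suffices hz : ∀ t, (LinearMap.mul' K _ ∘ₗ TensorProduct.map (W.pullA (fst A B)).toLinearMap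
      (W.pullA (snd A B)).toLinearMap) t ∈ Submodule.span K {y | ∃ (T : SmProjVar k)
      (u : W.H T → W.H (A.prod B)) (x : W.H T), W.IsAlgebraicMap T (A.prod B) u ∧
        IsWordIn W.toCohomologyData V E T x ∧ y = u x} by
    rw [eq_top_iff]
    intro z _
    obtain ⟨t, rfl⟩ := (W.kunneth A B (LinearMap.mul' K _ ∘ₗ TensorProduct.map
      (W.pullA (fst A B)).toLinearMap (W.pullA (snd A B)).toLinearMap) (fun a b => rfl)).2 z
    exact hz t
  intro t
  induction t using TensorProduct.induction_on with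
  | zero => rw [map_zero]; exact Submodule.zero_mem _
  | add a b ha hb => rw [map_add]; exact Submodule.add_mem _ ha hb
  | tmul a b =>
    change W.pullA (fst A B) a * W.pullA (snd A B) b ∈ _
    have ha : a ∈ Submodule.span K {y | ∃ (T : SmProjVar k) (u : W.H T → W.H A) (x : W.H T),
      W.IsAlgebraicMap T A u ∧ IsWordIn W.toCohomologyData V E T x ∧ y = u x} := by
      rw [hA]; trivial
    have hb : b ∈ Submodule.span K {y | ∃ (T : SmProjVar k) (u : W.H T → W.H B) (x : W.H T),
      W.IsAlgebraicMap T B u ∧ IsWordIn W.toCohomologyData V E T x ∧ y = u x} := by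
      rw [hB]; trivial
    induction ha using Submodule.span_induction with
    | zero => rw [map_zero, zero_mul]; exact Submodule.zero_mem _
    | add y z _ _ hy hz => rw [map_add, add_mul]; exact Submodule.add_mem _ hy hz
    | smul c y _ hy => rw [map_smul, smul_mul_assoc]; exact Submodule.smul_mem _ c hy
    | mem a ha =>
      induction hb using Submodule.span_induction with
      | zero => rw [map_zero, mul_zero]; exact Submodule.zero_mem _
      | add y z _ _ hy hz => rw [map_add, mul_add]; exact Submodule.add_mem _ hy hz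
      | smul c y _ hy => rw [map_smul, mul_smul_comm]; exact Submodule.smul_mem _ c hy
      | mem b hb =>
        obtain ⟨T, u, x, hu, hx, rfl⟩ := ha
        obtain ⟨T', u', x', hu', hx', rfl⟩ := hb
        obtain ⟨v, hv, hv'⟩ := ro4_ext_map W hu hu'
        exact Submodule.subset_span ⟨T.prod T', v, _, hv,
          ro4_word_mul W (ro4_pull_letter W (fst T T') hx) (ro4_pull_letter W (snd T T') hx'),
          (hv' x x').symm⟩

/-- `H(Y)` is finite-dimensional, so that words of bounded length suffice (relative to the point,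
`Obs.SpannedBy`). -/
theorem exists_spannedBy {Y : SmProjVar k} (hY : IsSpanned W.toCohomologyData V E Y) :
    ∃ n, SpannedBy W.toCohomologyData (pt k) V E n Y := by
  unfold IsSpanned at hY
  have hfin : Module.Finite K (W.H Y) := (W.graded Y).finite
  set S : Set (W.H Y) := {y | ∃ (T : SmProjVar k) (u : W.H T → W.H Y) (x : W.H T),
      W.IsAlgebraicMap T Y u ∧ IsWordIn W.toCohomologyData V E T x ∧ y = u x} with hS
  have h1 : (Submodule.span K S).FG := by rw [hY]; exact hfin.fg_top
  obtain ⟨s, hs, hspan⟩ := (Submodule.fg_span_iff_fg_span_finset_subset S).mp h1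
  have h2 : ∀ y ∈ S, ∃ n, ∃ (T : SmProjVar k) (u : W.H T → W.H Y) (x : W.H T),
      W.IsAlgebraicMap T Y u ∧
        IsWord W.toCohomologyData (pt k) V n (fun c _ => E c) T 0 x ∧ y = u x := by
    rintro y ⟨T, u, x, hu, ⟨b, c, f, v, hv, rfl⟩, rfl⟩
    refine ⟨b, T, u, _, hu, ⟨0, b, toPt k T, 1, c, f, fun _ => 0, v, le_rfl, hv, by simp, rfl⟩, ?_⟩
    have h3 : W.pull (toPt k T) (1 : W.H (pt k)) = 1 := (W.pull_hom _).map_one
    change u _ = u (W.pull (toPt k T) (1 : W.H (pt k)) * _)
    rw [h3, _root_.one_mul]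
  choose! N hN using h2
  refine ⟨s.sup N, ?_⟩
  unfold SpannedBy
  rw [eq_top_iff, ← hY, hspan, Submodule.span_le]
  intro y hy
  obtain ⟨T, u, x, hu, ⟨m, b, p, x', c, f, a, v, hb, hv, ha, hx⟩, rfl⟩ := hN y (hs hy)
  exact Submodule.subset_span ⟨T, u, x, hu, ⟨m, b, p, x', c, f, a, v,
    hb.trans (Finset.le_sup (f := N) hy), hv, ha, hx⟩, rfl⟩

end Pool.Agent.Helper11.Ro
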