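import Mathlib
import Pool.Agent.Helper11.Ro.Types
import Pool.Agent.Helper11.CanThm
import Pool.Agent.Helper11.RelStableThm
import Pool.Agent.Helper11.Zt.AlgMap
import Pool.Agent.Helper11.Ro.St.R5

/-!
# RO-7: the trace of a correspondence with coefficients in a subfield (MP_5f0950_ag)
-/

universe u v w t

open CategoryTheory Finset

namespace Pool.Agent.Helper11.Ro

open Pool.Agent.Helper10 hiding IsAlgAut parityPart
open SmProjVar SPre Pool.Agent.Helper11.Iso Pool.Agent.Helper11.Obs

variable {k : Type u} [Field k] {K : Type v} [Field K] [CharZero K]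
  (W : WeilCohomology.{u, v, w} k K) {F : Subfield K}

/-- the sign given by the parity of a piece -/
lemma r7_sign {V : SmProjVar k} {E : Submodule K (W.H V)}
    (h : ∃ p, E ≤ parityPart W.toCohomologyData V p) :
    ∃ s : K, (s = 1 ∨ s = -1) ∧
      ∀ y ∈ E, par (W.toSPre K) V (Obs.one W K y) = s • Obs.one W K y := by
  obtain ⟨p, hp⟩ := h
  by_cases h : Even p
  · refine ⟨1, .inl rfl, fun y hy => ?_⟩
    rw [par_ev (Obs.one_ev W K (Obs.parityPart_le_evK W h (hp hy))), one_smul]
  · refine ⟨-1, .inr rfl, fun y hy => ?_⟩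
    rw [par_od (Obs.one_od W K (Obs.parityPart_le_odK W h (hp hy))), neg_one_smul]

/-- the pairing with an element of a piece is symmetric up to a sign -/
lemma r7_symm {V : SmProjVar k} {E : Submodule K (W.H V)} {s : K}
    (hs : ∀ y ∈ E, par (W.toSPre K) V (Obs.one W K y) = s • Obs.one W K y) (a : W.H V) {b : W.H V}
    (hb : b ∈ E) : W.pairing V a b = s * W.pairing V b a := by
  have h1 : (W.toSPre K).tr V (Obs.one W K a * Obs.one W K b) =
      s * (W.toSPre K).tr V (Obs.one W K b * Obs.one W K a) := by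
    rw [tr_par, hs b hb, smul_mul_assoc, map_smul, smul_eq_mul]
  rw [Obs.tr_one_mul, Obs.tr_one_mul] at h1
  exact h1

/-- the projector is the identity on the piece -/
lemma r7_self {V : SmProjVar k} {E : Submodule K (W.H V)} {s : K}
    (hs : ∀ y ∈ E, par (W.toSPre K) V (Obs.one W K y) = s • Obs.one W K y) {π : W.H V → W.H V}
    (hπ : ∀ y, π y ∈ E ∧ ∀ x ∈ E, W.pairing V x (π y) = W.pairing V x y) {y : W.H V}
    (hy : y ∈ E) : π y = y := by
  have hz : π y - y ∈ E := E.sub_mem (hπ y).1 hy
  have h1 : ∀ x ∈ E, W.trL V (x * (π y - y)) = 0 := by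
    intro x hx
    have h2 : W.trL V (x * π y) = W.trL V (x * y) := (hπ y).2 x hx
    rw [mul_sub, map_sub, h2, sub_self]
  have h2 : π y - y = 0 := by
    refine (W.trace V).nondegenerate (π y - y) fun x => ?_
    have h3 : W.pairing V (π y - y) (π x) = W.pairing V (π y - y) x := (hπ x).2 _ hz
    have h4 : W.pairing V (π y - y) (π x) = s * W.pairing V (π x) (π y - y) :=
      r7_symm W hs (π y - y) (hπ x).1
    have h5 : W.pairing V (π x) (π y - y) = 0 := h1 (π x) (hπ x).1
    rw [h5, mul_zero] at h4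
    exact h3.symm.trans h4
  exact sub_eq_zero.mp h2

/-- extension of scalars from `K` to `K` -/
noncomputable def r7_equiv (V : SmProjVar k) : W.H V ≃ₗ[K] (W.toSPre K).H V :=
  LinearEquiv.ofBijective
    (({ toFun := Obs.one W K
        map_add' := Obs.one_add W K
        map_smul' := fun a x => Can.one_smul' W K a x } : W.H V →ₗ[K] (W.toSPre K).H V))
    ⟨Zt.one_injective W V, fun z => by
      obtain ⟨y, hy⟩ := Can.eq_one W V z
      exact ⟨y, hy.symm⟩⟩

lemma r7_equiv_apply {V : SmProjVar k} (x : W.H V) : r7_equiv W V x = Obs.one W K x := rfl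

/-- the trace formula, for a class with coefficients in `F` -/
lemma r7_trace {V : SmProjVar k} {κ : W.H (V.prod V)}
    (hκ : κ ∈ cycleSpan W.toCohomologyData F (V.prod V)) :
    LinearMap.trace K ((W.toSPre K).H V) (op (Obs.one W K κ) ∘ₗ par (W.toSPre K) V) ∈ F := by
  obtain ⟨c, -, hc⟩ := W.cycleClasses.cy_fundamental V
  have h1 : (1 : W.H V) ∈ cycleGroup W.toCohomologyData V := by
    rw [← hc]
    exact cy_mem_cycleGroup W V 0 c
  obtain ⟨a, ha⟩ := tr_cycleSpan W V (pull_mem_cycleSpan W (lift (𝟙 V.toOver) (𝟙 V.toOver)) hκ) h1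
  rw [mul_one] at ha
  have h2 : (W.toSPre K).tr V ((W.toSPre K).pull (lift (𝟙 V.toOver) (𝟙 V.toOver))
      (Obs.one W K κ)) = (a : K) := by
    have h3 : W.trΩ K V (W.pullΩ K (lift (𝟙 V.toOver) (𝟙 V.toOver)) ((1 : K) ⊗ₜ[K] κ)) = (a : K) := by
      rw [WeilCohomology.pullΩ_tmul, WeilCohomology.trΩ_tmul, ha, smul_eq_mul, mul_one]
    exact h3
  rw [trace_op, h2]
  exact a.2

/-- The trace of a correspondence with coefficients in `F` on a piece over `F` is in `F`.

Proof: replace `u` by `π ∘ u ∘ π`, with the projector `π` to `E` (`hE.projector`,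
`isMapOver_comp`), which is zero on a complement of `E`, has values in `E`, and agrees with `u` on
`E` (`π y = y` for `y ∈ E`, by nondegeneracy of the pairing on `E`). The trace of `ul` on `E` is
the trace of `π ∘ u ∘ π` on `H(V)`, and up to the sign given by the parity of `E` the trace of
`op c ∘ par`, for the class `c ∈ cycleSpan F (V × V)` of `π ∘ u ∘ π`, which is given by
`Iso.trace_op` (Pool/Agent/Helper11/Iso/Projector.lean) as the trace of `c * delta` (or of the
pull-back of `c` under the diagonal), which is in `F` by `tr_cycleSpan`. (`P = W.toSPre K`; the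
`K`-linear map on `W.H V` corresponds to `op (Obs.one W K c)` on `K ⊗ W.H V`, the trace does not change:
`LinearMap.trace_baseChange`, or use the basis `1 ⊗ b i`.) -/
theorem trace_mem {V : SmProjVar k} {E : Submodule K (W.H V)}
    (hE : IsPieceOver W.toCohomologyData F V E) {u : W.H V → W.H V}
    (hu : IsMapOver W.toCohomologyData F V u) (A : Module.End K E)
    (hA : ∀ y : E, ((A y : E) : W.H V) = u y) : LinearMap.trace K E A ∈ F := by
  have hfin : Module.Finite K (W.H V) := (W.graded V).finite
  obtain ⟨s, hs1, hs⟩ := r7_sign W hE.parity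
  obtain ⟨π, hπ, hπ'⟩ := hE.projector
  obtain ⟨πl, hπl⟩ := IsMapOver.exists_linear W hπ
  have hself : ∀ y ∈ E, π y = y := fun y hy => r7_self W hs hπ' hy
  obtain ⟨κ, hκ, h⟩ := (isMapOver_iff W).mp (isMapOver_comp W (isMapOver_comp W hπ hu) hπ)
  -- the projector, as a map to `E`
  let πE : W.H V →ₗ[K] E := πl.codRestrict E fun x => by rw [hπl]; exact (hπ' x).1
  have hπE : ∀ x, ((πE x : E) : W.H V) = π x := fun x => hπl x
  have hπE' : ∀ y : E, πE y = y := fun y => Subtype.ext ((hπE y).trans (hself y y.2))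
  have hval : ∀ x, E.subtype (A (πE x)) = π (u (π x)) := by
    intro x
    have h1 : ((A (πE x) : E) : W.H V) = u (π x) := by rw [hA, hπE]
    have h2 : u (π x) ∈ E := by
      rw [← h1]
      exact (A (πE x)).2
    rw [Submodule.subtype_apply, h1, hself _ h2]
  -- the traces
  have htr : LinearMap.trace K (W.H V) (E.subtype ∘ₗ (A ∘ₗ πE)) = LinearMap.trace K E A := by
    rw [LinearMap.trace_comp_comm']
    congr 1
    ext y
    rw [LinearMap.comp_apply, LinearMap.comp_apply, Submodule.subtype_apply, hπE']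
  have hconj : (r7_equiv W V).conj (E.subtype ∘ₗ (A ∘ₗ πE)) = op (Obs.one W K κ) := by
    refine LinearMap.ext fun z => ?_
    obtain ⟨x, rfl⟩ := (r7_equiv W V).surjective z
    rw [LinearEquiv.conj_apply_apply, LinearEquiv.symm_apply_apply, LinearMap.comp_apply,
      LinearMap.comp_apply, hval, r7_equiv_apply, r7_equiv_apply, h]
  have hpar : op (Obs.one W K κ) ∘ₗ par (W.toSPre K) V = s • op (Obs.one W K κ) := by
    refine LinearMap.ext fun z => ?_
    obtain ⟨x, rfl⟩ := (r7_equiv W V).surjective z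
    have hev : Obs.one W K κ ∈ (W.toSPre K).ev (V.prod V) :=
      (W.toSPre K).alg_le_ev _ (Obs.one_mem_alg W K (cycleSpan_le W _ hκ))
    rw [LinearMap.comp_apply, op_par hev, r7_equiv_apply, h, hs _ (hπ' _).1, LinearMap.smul_apply,
      h]
  have h1 := r7_trace W hκ
  rw [hpar, map_smul, ← hconj, LinearMap.trace_conj', htr, smul_eq_mul] at h1
  rcases hs1 with rfl | rfl
  · rwa [_root_.one_mul] at h1
  · have h2 := F.neg_mem h1
    rwa [neg_mul, _root_.one_mul, neg_neg] at h2

end Pool.Agent.Helper11.Ro
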