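import Mathlib

/-!
# RO-8: eigenvalues algebraic over a subfield (MP_5f0950_ag)
-/

universe v w

namespace Pool.Agent.Helper11.Ro

open Polynomial

variable {K : Type v} [Field K] [CharZero K] (F : Subfield K) {E : Type w} [AddCommGroup E]
  [Module K E] [Module.Finite K E]

omit [Module.Finite K E] [CharZero K] in
/-- Trace of a polynomial without constant term. -/
private lemma r8_trace_aeval (B : Module.End K E)
    (hB : ∀ k : ℕ, 1 ≤ k → LinearMap.trace K E (B ^ k) = 0) (q : Polynomial K) :
    LinearMap.trace K E (aeval B (X * q)) = 0 := by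
  rw [aeval_eq_sum_range, map_sum]
  refine Finset.sum_eq_zero fun i _ => ?_
  rw [map_smul]
  rcases Nat.eq_zero_or_pos i with h | h
  · subst h
    simp
  · rw [hB i h, smul_zero]

/-- An endomorphism all of whose positive powers have trace zero is nilpotent (characteristic
zero). -/
private lemma r8_isNilpotent (B : Module.End K E)
    (hB : ∀ k : ℕ, 1 ≤ k → LinearMap.trace K E (B ^ k) = 0) : IsNilpotent B := by
  classical
  set m : Polynomial K := minpoly K B with hm
  have hm0 : m ≠ 0 := minpoly.ne_zero (Algebra.IsIntegral.isIntegral B)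
  obtain ⟨g, hg⟩ := exists_eq_pow_rootMultiplicity_mul_and_not_dvd m hm0 0
  obtain ⟨hg1, hg2⟩ := hg
  set d := rootMultiplicity 0 m with hd
  rw [C_0, sub_zero] at hg1 hg2
  have hcop : IsCoprime (X ^ (d + 1) : Polynomial K) g := by
    refine IsCoprime.pow_left ?_
    exact (Polynomial.irreducible_X.coprime_iff_not_dvd).2 hg2
  obtain ⟨u, v, huv⟩ := hcop
  have hmB : aeval B m = 0 := minpoly.aeval K B
  set e : Module.End K E := aeval B (u * X ^ (d + 1)) with he
  have hidem : IsIdempotentElem e := by
    have h1 : e * (1 - e) = 0 := by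
      have h2 : (1 - e) = aeval B (v * g) := by
        have h3 : (1 : Module.End K E) = aeval B (u * X ^ (d + 1) + v * g) := by
          rw [huv, map_one]
        rw [h3, map_add, he]
        abel
      rw [h2, he, ← map_mul]
      have h4 : u * X ^ (d + 1) * (v * g) = (u * X * v) * m := by
        rw [hg1]; ring
      rw [h4, map_mul, hmB, mul_zero]
    rw [mul_sub, mul_one, sub_eq_zero] at h1
    exact h1.symm
  have htr : LinearMap.trace K E e = 0 := by
    have h1 : u * X ^ (d + 1) = X * (u * X ^ d) := by ring
    rw [he, h1]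
    exact r8_trace_aeval B hB _
  have he0 : e = 0 := by
    have h1 := (LinearMap.IsIdempotentElem.isProj_range e hidem).trace
    rw [htr] at h1
    have h2 : Module.finrank K (LinearMap.range e) = 0 := by
      exact_mod_cast h1.symm
    rw [Submodule.finrank_eq_zero] at h2
    exact LinearMap.range_eq_bot.1 h2
  refine ⟨d, ?_⟩
  have h5 : aeval B (v * g) = 1 := by
    have h3 : (1 : Module.End K E) = aeval B (u * X ^ (d + 1) + v * g) := by
      rw [huv, map_one]
    rw [h3, map_add, ← he, he0, zero_add]
  have h6 : B ^ d = aeval B (X ^ d * (v * g)) := by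
    rw [map_mul, h5, mul_one, map_pow, aeval_X]
  have h7 : X ^ d * (v * g) = v * m := by
    rw [hg1]; ring
  rw [h6, h7, map_mul, hmB, mul_zero]

/-- If the traces of all powers of `A` are in the subfield `F`, then `p(A)` is nilpotent for some
nonzero polynomial `p` with coefficients in `F`. (In fact the characteristic polynomial of `A` has
coefficients in `F`, by Newton's identities, if these are available.)

Proof without Newton's identities: let `n = dim_K K[A]`, so that `K[A]` is spanned by
`A ^ i`, `i < n`. The `F`-linear map `F[T]_{≤ n} → F ^ n`, `p ↦ (tr (A ^ i * p(A)))_{i < n}` has a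
nonzero kernel, and for `p` in the kernel, `tr (q(A) p(A)) = 0` for all `q ∈ K[T]`, in particular the
traces of all positive powers of `p(A)` are zero, so that `p(A)` is nilpotent in characteristic `0`
(`LinearMap.isNilpotent_iff_...trace...` or the lemma used in `Iso.tr_eq_zero_of_sq`; search
Mathlib for `isNilpotent` and `trace`). -/
theorem exists_isNilpotent_of_trace (A : Module.End K E)
    (hA : ∀ n : ℕ, LinearMap.trace K E (A ^ n) ∈ F) :
    ∃ p : Polynomial F, p ≠ 0 ∧ IsNilpotent (aeval A (p.map F.subtype)) := by
  classical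
  set n := A.charpoly.natDegree with hn
  let M : Matrix (Fin n) (Fin (n + 1)) F := fun i j =>
    ⟨LinearMap.trace K E (A ^ ((i : ℕ) + (j : ℕ))), hA _⟩
  have hker : LinearMap.ker M.mulVecLin ≠ ⊥ :=
    LinearMap.ker_ne_bot_of_finrank_lt (by simp)
  obtain ⟨c, hcker, hc0⟩ := Submodule.exists_mem_ne_zero_of_ne_bot hker
  rw [LinearMap.mem_ker, Matrix.mulVecLin_apply] at hcker
  let p : Polynomial F := ∑ j : Fin (n + 1), C (c j) * X ^ (j : ℕ)
  have hpcoeff : ∀ j : Fin (n + 1), p.coeff (j : ℕ) = c j := by
    intro j
    simp only [p, finsetSum_coeff, coeff_C_mul, coeff_X_pow]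
    rw [Finset.sum_eq_single j]
    · simp
    · intro b _ hb
      rw [if_neg, mul_zero]
      intro h
      exact hb (Fin.ext h.symm)
    · simp
  have hp0 : p ≠ 0 := by
    intro h
    apply hc0
    funext j
    rw [← hpcoeff j, h, coeff_zero]
    rfl
  set B : Module.End K E := aeval A (p.map F.subtype) with hB
  have hBsum : B = ∑ j : Fin (n + 1), (c j : K) • A ^ (j : ℕ) := by
    simp only [hB, p, Polynomial.map_sum, map_sum, Polynomial.map_mul, Polynomial.map_C,
      Polynomial.map_pow, Polynomial.map_X, map_mul, aeval_C, map_pow, aeval_X]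
    refine Finset.sum_congr rfl fun j _ => ?_
    rw [Algebra.smul_def]
    rfl
  have h1 : ∀ i : ℕ, i < n → LinearMap.trace K E (A ^ i * B) = 0 := by
    intro i hi
    have h2 := congrFun hcker ⟨i, hi⟩
    simp only [Matrix.mulVec, dotProduct, M, Pi.zero_apply] at h2
    have h3 := congrArg (fun x : F => (x : K)) h2
    simp only [AddSubmonoidClass.coe_finsetSum, MulMemClass.coe_mul, ZeroMemClass.coe_zero] at h3
    rw [hBsum, Finset.mul_sum, map_sum, ← h3]
    refine Finset.sum_congr rfl fun j _ => ?_
    rw [mul_smul_comm, ← pow_add, map_smul, smul_eq_mul, mul_comm]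
  have h2 : ∀ q : Polynomial K, LinearMap.trace K E (aeval A q * B) = 0 := by
    intro q
    have hmon : A.charpoly.Monic := LinearMap.charpoly_monic A
    have h3 : aeval A q = aeval A (q %ₘ A.charpoly) := by
      conv_lhs => rw [← modByMonic_add_div q A.charpoly]
      rw [map_add, map_mul, LinearMap.aeval_self_charpoly, zero_mul, add_zero]
    rw [h3, aeval_eq_sum_range, Finset.sum_mul, map_sum]
    refine Finset.sum_eq_zero fun i _ => ?_
    rw [smul_mul_assoc, map_smul]
    by_cases hin : i < n
    · rw [h1 i hin, smul_zero]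
    · rw [coeff_eq_zero_of_degree_lt, zero_smul]
      refine lt_of_lt_of_le (degree_modByMonic_lt q hmon) ?_
      rw [degree_eq_natDegree hmon.ne_zero]
      exact_mod_cast not_lt.1 hin
  refine ⟨p, hp0, r8_isNilpotent B ?_⟩
  intro k hk
  obtain ⟨l, rfl⟩ := Nat.exists_eq_add_of_le' hk
  rw [pow_succ]
  have h4 : B ^ l = aeval A ((p.map F.subtype) ^ l) := by rw [map_pow]
  rw [h4]
  exact h2 _

/-- Let `A` be an endomorphism of `E` such that `p(A)` is nilpotent for some nonzero `p ∈ F[T]`, let
`f` be linearly independent elements of `E` with `A (f s) = ∑ s', ρ s' s • f s'`. Then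
`det (a - ρ)` is algebraic over `F`, for all `a ∈ F`: the roots of the characteristic polynomial of
`ρ` in an algebraic closure of `K` are roots of `p` (as `p(ρ)` is nilpotent), so they are algebraic
over `F`, and `det (a - ρ)` is the product of the `a - α` for these roots. -/
theorem isAlgebraic_det (A : Module.End K E) {p : Polynomial F} (hp : p ≠ 0)
    (hA : IsNilpotent (aeval A (p.map F.subtype))) {r : ℕ} {f : Fin r → E}
    (hf : LinearIndependent K f) (ρ : Matrix (Fin r) (Fin r) K)
    (hρ : ∀ s, A (f s) = ∑ s', ρ s' s • f s') {a : K} (ha : a ∈ F) :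
    IsAlgebraic F (Matrix.scalar (Fin r) a - ρ).det := by
  classical
  obtain ⟨N, hN⟩ := hA
  -- `P = p ^ N` kills `A`, hence `ρ`
  set P : Polynomial F := p ^ N with hP
  have hP0 : P ≠ 0 := pow_ne_zero _ hp
  have hPA : aeval A (P.map F.subtype) = 0 := by
    rw [hP, Polynomial.map_pow, map_pow, hN]
  have hcomm : ∀ (q : Polynomial K) (v : Fin r → K),
      aeval A q (∑ s, v s • f s) = ∑ s, ((aeval ρ q).mulVec v) s • f s := by
    have hone : ∀ v : Fin r → K, A (∑ s, v s • f s) = ∑ s, (ρ.mulVec v) s • f s := by
      intro v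
      rw [map_sum]
      simp only [map_smul, hρ, Finset.smul_sum, Matrix.mulVec, dotProduct, Finset.sum_smul]
      rw [Finset.sum_comm]
      refine Finset.sum_congr rfl fun s _ => Finset.sum_congr rfl fun t _ => ?_
      rw [smul_smul, mul_comm]
    intro q
    induction q using Polynomial.induction_on' with
    | add q₁ q₂ h₁ h₂ =>
      intro v
      rw [map_add, map_add, LinearMap.add_apply, h₁ v, h₂ v, ← Finset.sum_add_distrib]
      refine Finset.sum_congr rfl fun s _ => ?_
      rw [Matrix.add_mulVec, Pi.add_apply, add_smul]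
    | monomial k c =>
      intro v
      rw [aeval_monomial, aeval_monomial]
      induction k generalizing v with
      | zero =>
        simp only [pow_zero, mul_one]
        rw [Module.algebraMap_end_apply, Finset.smul_sum]
        refine Finset.sum_congr rfl fun s _ => ?_
        rw [smul_smul, Matrix.algebraMap_eq_diagonal, Matrix.mulVec_diagonal]
        rfl
      | succ k ih =>
        rw [pow_succ, ← mul_assoc, Module.End.mul_apply, hone, ih, pow_succ, ← mul_assoc]
        refine Finset.sum_congr rfl fun s _ => ?_
        rw [Matrix.mulVec_mulVec]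
  have hPρ : aeval ρ (P.map F.subtype) = 0 := by
    apply Matrix.ext_of_mulVec_single
    intro s
    rw [Matrix.zero_mulVec]
    have h1 := hcomm (P.map F.subtype) (Pi.single s 1)
    rw [hPA, LinearMap.zero_apply] at h1
    have h2 := Fintype.linearIndependent_iff.1 hf _ h1.symm
    funext t
    exact h2 t
  -- pass to the algebraic closure
  set L := AlgebraicClosure K with hL
  set ρ' : Matrix (Fin r) (Fin r) L := ρ.map (algebraMap K L) with hρ'
  have hPρ' : aeval ρ' ((P.map F.subtype).map (algebraMap K L)) = 0 := by
    have h1 : aeval ρ' ((P.map F.subtype).map (algebraMap K L)) =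
        (algebraMap K L).mapMatrix (aeval ρ (P.map F.subtype)) := by
      rw [Polynomial.aeval_map_algebraMap]
      have h2 := Polynomial.aeval_algHom_apply ((Algebra.ofId K L).mapMatrix (m := Fin r)) ρ
        (P.map F.subtype)
      exact h2
    rw [h1, hPρ, map_zero]
  have hroots : ∀ α ∈ ρ'.charpoly.roots, IsAlgebraic F α := by
    intro α hα
    have h1 : α ∈ spectrum L ρ' := by
      apply Matrix.mem_spectrum_of_isRoot_charpoly
      exact isRoot_of_mem_roots hα
    have h2 : Nontrivial (Matrix (Fin r) (Fin r) L) := by
      by_contra hcon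
      rw [not_nontrivial_iff_subsingleton] at hcon
      rw [spectrum.of_subsingleton] at h1
      exact h1
    have h3 : eval α ((P.map F.subtype).map (algebraMap K L)) ∈
        spectrum L (aeval ρ' ((P.map F.subtype).map (algebraMap K L))) :=
      spectrum.subset_polynomial_aeval ρ' _ ⟨α, h1, rfl⟩
    rw [hPρ', spectrum.zero_eq, Set.mem_singleton_iff] at h3
    refine ⟨P, hP0, ?_⟩
    rw [← h3, Polynomial.map_map, ← Polynomial.eval₂_eq_eval_map, Polynomial.aeval_def]
    rfl
  have hdet : algebraMap K L (Matrix.scalar (Fin r) a - ρ).det =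
      (ρ'.charpoly.roots.map fun α => algebraMap K L a - α).prod := by
    have h1 : (Matrix.scalar (Fin r) a - ρ).det = ρ.charpoly.eval a := by
      rw [Matrix.eval_charpoly]
    have h2 : ρ'.charpoly = ρ.charpoly.map (algebraMap K L) := by
      rw [hρ', Matrix.charpoly_map]
    rw [h1]
    have h3 : algebraMap K L (ρ.charpoly.eval a) = ρ'.charpoly.eval (algebraMap K L a) := by
      rw [h2, eval_map_algebraMap, aeval_algebraMap_apply, coe_aeval_eq_eval]
    rw [h3]
    exact (IsAlgClosed.splits ρ'.charpoly).eval_eq_prod_roots_of_monic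
      (Matrix.charpoly_monic ρ') (algebraMap K L a)
  have halg : IsAlgebraic F (algebraMap K L (Matrix.scalar (Fin r) a - ρ).det) := by
    rw [hdet]
    have haL : IsAlgebraic F (algebraMap K L a) := by
      have : algebraMap K L a = algebraMap F L ⟨a, ha⟩ := rfl
      rw [this]
      exact isAlgebraic_algebraMap _
    have hmem : ((ρ'.charpoly.roots.map fun α => algebraMap K L a - α).prod) ∈
        (algebraicClosure F L) := by
      apply multiset_prod_mem
      intro x hx
      obtain ⟨α, hα, rfl⟩ := Multiset.mem_map.1 hx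
      exact mem_algebraicClosure_iff.2 (haL.sub (hroots α hα))
    exact mem_algebraicClosure_iff.1 hmem
  exact (isAlgebraic_algebraMap_iff (algebraMap K L).injective).1 halg

end Pool.Agent.Helper11.Ro
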